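import Pool.Agent.Run7.h789.SM.Gen

/-!
# Contracted curves
-/

set_option autoImplicit false
set_option synthInstance.maxHeartbeats 400000

open MvPolynomial FF

namespace Pool.Agent.Run7.h789.SM

open Pool.Agent.W602.Cov.R (BiSet BiPoly BiHom)
open Pool.Agent.W602.GT (coords)
open Pool.Agent.W603.LV
open Pool.Agent.W603.PV
open Pool.Agent.Run7.h789.FV (hgt_le_mht mht_nonneg mht_le)

variable {N M : ℕ}

/-- The bihomogeneous forms which vanish at the point: they determine its Zariski closure. -/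
def vanP {L : Type} [Field L] [Algebra ℂ L] (a : Fin (N + 1) → L) (x : Fin (M + 1) → L) :
    Set (BiPoly N M) :=
  {G | (∃ D D', BiHom G D D') ∧ aeval (Sum.elim a x) G = 0}

/-- The points lie in the same closed subsets of the projective space. -/
def Same {m : ℕ} {E L : Type} [Field E] [Algebra ℂ E] [Field L] [Algebra ℂ L]
    (w : Fin (m + 1) → E) (v : Fin (m + 1) → L) : Prop :=
  ∀ (G : MvPolynomial (Fin (m + 1)) ℂ) (D : ℕ), G.IsHomogeneous D →
    (aeval w G = 0 ↔ aeval v G = 0)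

/-- the fibre of a form over the point `c` -/
noncomputable def spec (c : Fin (M + 1) → ℂ) (G : BiPoly N M) : MvPolynomial (Fin (N + 1)) ℂ :=
  aeval (Sum.elim X fun j => C (c j)) G

theorem spec_val (c : Fin (M + 1) → ℂ) (G : BiPoly N M) {L : Type} [Field L] [Algebra ℂ L]
    (a : Fin (N + 1) → L) :
    aeval a (spec c G) = aeval (Sum.elim a fun j => algebraMap ℂ L (c j)) G := by
  unfold spec
  rw [comp_aeval_apply]
  congr 2
  funext s
  rcases s with s | s
  · simp only [Sum.elim_inl, aeval_X]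
  · simp only [Sum.elim_inr, algHom_C]

theorem spec_hom {G : BiPoly N M} {D D' : ℕ} (hG : BiHom G D D') (c : Fin (M + 1) → ℂ) :
    (spec c G).IsHomogeneous D := by
  classical
  unfold spec
  rw [aeval_def, eval₂_eq']
  refine IsHomogeneous.sum _ _ _ fun α hα => ?_
  have h1 := hG (mem_support_iff.1 hα)
  rw [Finsupp.weight_apply, Finsupp.sum_fintype _ _ (by simp)] at h1
  rw [Fintype.sum_sum_type] at h1
  simp only [Sum.elim_inl, Sum.elim_inr] at h1
  have h2 : ∑ i, α (Sum.inl i) = D := by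
    have := congrArg Prod.fst h1
    simpa [Prod.fst_sum] using this
  rw [Fintype.prod_sum_type]
  simp only [Sum.elim_inl, Sum.elim_inr]
  have h3 : (∏ j, (C (c j) : MvPolynomial (Fin (N + 1)) ℂ) ^ α (Sum.inr j)) =
      C (∏ j, c j ^ α (Sum.inr j)) := by
    rw [map_prod]
    refine Finset.prod_congr rfl fun j _ => ?_
    rw [map_pow]
  rw [h3]
  have h4 : (∏ i, (X i : MvPolynomial (Fin (N + 1)) ℂ) ^ α (Sum.inl i)).IsHomogeneous
      (∑ i, α (Sum.inl i)) := by
    refine IsHomogeneous.prod _ _ _ fun i _ => ?_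
    have h5 := (isHomogeneous_X ℂ i).pow (α (Sum.inl i))
    rwa [one_mul] at h5
  rw [h2] at h4
  have h5 := (isHomogeneous_C (Fin (N + 1)) (coeff α G)).mul
    (h4.mul (isHomogeneous_C (Fin (N + 1)) (∏ j, c j ^ α (Sum.inr j))))
  rw [zero_add, add_zero] at h5
  exact h5

theorem val_const {L : Type} [Field L] [Algebra ℂ L] (a : Fin (N + 1) → L)
    {x : Fin (M + 1) → L} {l : L} {c : Fin (M + 1) → ℂ} (hx : ∀ j, x j = l * algebraMap ℂ L (c j))
    {G : BiPoly N M} {D D' : ℕ} (hG : BiHom G D D') :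
    aeval (Sum.elim a x) G = l ^ D' * aeval a (spec c G) := by
  have h1 := Pool.Agent.Run7.h789.RC.bi_scale hG 1 l a fun j => algebraMap ℂ L (c j)
  rw [one_pow, one_mul, ← spec_val] at h1
  rw [← h1]
  congr 2
  funext s
  rcases s with s | s
  · simp only [Sum.elim_inl, one_mul]
  · simp only [Sum.elim_inr, hx]

theorem vanP_eq {L L' : Type} [Field L] [Algebra ℂ L] [Field L'] [Algebra ℂ L']
    {a : Fin (N + 1) → L} {a' : Fin (N + 1) → L'} (h : Same a a') {x : Fin (M + 1) → L}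
    {x' : Fin (M + 1) → L'} {l : L} {l' : L'} {c : Fin (M + 1) → ℂ} (hl : l ≠ 0) (hl' : l' ≠ 0)
    (hx : ∀ j, x j = l * algebraMap ℂ L (c j)) (hx' : ∀ j, x' j = l' * algebraMap ℂ L' (c j)) :
    vanP a x = vanP a' x' := by
  ext G
  refine and_congr_right fun hG => ?_
  obtain ⟨D, D', hD⟩ := hG
  rw [val_const a hx hD, val_const a' hx' hD, mul_eq_zero, mul_eq_zero,
    or_iff_right (pow_ne_zero _ hl), or_iff_right (pow_ne_zero _ hl')]
  exact h _ D (spec_hom hD c)

/-- a form in the first group of variables -/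
theorem hom_inl {P : MvPolynomial (Fin (N + 1)) ℂ} {D : ℕ} (hP : P.IsHomogeneous D) :
    BiHom (n := M) (rename Sum.inl P) D 0 := by
  intro α hα
  obtain ⟨β, rfl, hβ⟩ := coeff_rename_ne_zero _ _ _ hα
  have h1 := hP hβ
  rw [Finsupp.weight_apply, Finsupp.sum_mapDomain_index (by simp) (by intros; rw [add_smul])]
  rw [Finsupp.weight_apply, Finsupp.sum_fintype _ _ (by simp)] at h1
  rw [Finsupp.sum_fintype _ _ (by simp)]
  ext
  · simp only [Sum.elim_inl, Prod.smul_mk, smul_zero, Prod.fst_sum]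
    simpa using h1
  · simp [Prod.snd_sum]

theorem same_of_vanP {L L' : Type} [Field L] [Algebra ℂ L] [Field L'] [Algebra ℂ L']
    {a : Fin (N + 1) → L} {a' : Fin (N + 1) → L'} {x : Fin (M + 1) → L}
    {x' : Fin (M + 1) → L'} (h : vanP a x = vanP a' x') : Same a a' := by
  intro G D hG
  have h1 : (rename Sum.inl G : BiPoly N M) ∈ vanP a x ↔ rename Sum.inl G ∈ vanP a' x' := by
    rw [h]
  have h2 : ∀ {E : Type} [Field E] [Algebra ℂ E] (u : Fin (N + 1) → E) (v : Fin (M + 1) → E),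
      (rename Sum.inl G : BiPoly N M) ∈ vanP u v ↔ aeval u G = 0 := by
    intro E _ _ u v
    have h3 : aeval (Sum.elim u v) (rename Sum.inl G : BiPoly N M) = aeval u G := by
      rw [aeval_rename, Sum.elim_comp_inl]
    constructor
    · rintro ⟨-, h4⟩
      rwa [h3] at h4
    · intro h4
      exact ⟨⟨D, 0, hom_inl hG⟩, by rw [h3, h4]⟩
  rwa [h2, h2] at h1

theorem not_nonconst {m : ℕ} {L : Type} [Field L] [Algebra ℂ L] {x : Fin (m + 1) → L}
    (h : ¬ Nonconst x) {j₀ : Fin (m + 1)} (hj : x j₀ ≠ 0) :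
    ∃ c : Fin (m + 1) → ℂ, c j₀ = 1 ∧ ∀ j, x j = x j₀ * algebraMap ℂ L (c j) := by
  refine const_of hj fun j => ?_
  by_contra h1
  exact h ⟨j, j₀, hj, h1⟩

theorem const_nonconst {m : ℕ} {L : Type} [Field L] [Algebra ℂ L] {x : Fin (m + 1) → L} {l : L}
    {c : Fin (m + 1) → ℂ} (h : ∀ j, x j = l * algebraMap ℂ L (c j)) : ¬ Nonconst x := by
  rintro ⟨i, j, hj, htr⟩
  have hl : l ≠ 0 := by
    rintro rfl
    exact hj (by rw [h j, zero_mul])
  apply htr
  have h1 : x i / x j = algebraMap ℂ L (c i / c j) := by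
    rw [h i, h j, mul_div_mul_left _ _ hl, map_div₀]
  rw [h1]
  exact isAlgebraic_algebraMap _

/-- **(A)** The heights of the points of a small set with nonconstant second component. -/
theorem small_hgt {X : BiSet N M} (hX : Small X) :
    ∃ C : ℕ, ∀ (L : Type) [Field L] [Algebra ℂ L] [IsFF ℂ L] (a : Fin (N + 1) → L)
      (x : Fin (M + 1) → L), X.Mem a x → Nonconst x → pht ℂ a ≤ C * pht ℂ x := by
  classical
  by_contra hcon
  push Not at hcon
  choose L fL aL iL a x hpt hnc hlt using hcon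
  obtain ⟨Ω, _, _, φ, key, hm, hdiv⟩ := limit_pt X hpt
  obtain ⟨i₀, hi'⟩ := Function.ne_iff.1 hm.1
  obtain ⟨j₀, hj'⟩ := Function.ne_iff.1 hm.2.1
  have hi : φ (fun n => a n i₀) ≠ 0 := hi'
  have hj : φ (fun n => x n j₀) ≠ 0 := hj'
  rcases small_split hX hm with h1 | ⟨h1, -⟩
  · obtain ⟨D, c, hc⟩ := limit_rel key hdiv hi hj fun i => h1 i i₀
    let C : Fin (N + 1) → ℕ := fun i => ∑ l ∈ Finset.range (D i + 1),
      (c i l).totalDegree * (M + 1)
    obtain ⟨n, hn, han, hxn, hrel⟩ := hc (∑ i, C i)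
    have h3 : ∀ i, hgt ℂ (a n i / a n i₀) ≤ C i * pht ℂ (x n) := fun i =>
      Pool.Agent.Run7.h789.RC.rel_hgt (K := ℂ) hxn (D := D i) (c := c i) (hrel i).1 (hrel i).2
    have h4 : pht ℂ (a n) ≤ (∑ i, C i : ℕ) * pht ℂ (x n) := by
      refine (mht_le (k := ℂ) (a n) han).trans ((Finset.sum_le_sum fun i _ => h3 i).trans ?_)
      rw [← Finset.sum_mul]
      push_cast
      exact le_rfl
    have h5 : 0 ≤ pht ℂ (x n) := mht_nonneg (k := ℂ) ⟨j₀, hxn⟩
    have h6 := hlt n
    have h7 : ((∑ i, C i : ℕ) : ℤ) ≤ n := by exact_mod_cast hn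
    nlinarith
  · obtain ⟨c, -, hc⟩ := not_nonconst h1 hj
    obtain ⟨n, -, h2, -⟩ := key (Finset.univ.image fun j => (fun n => x n j) -
      (fun n => x n j₀) * algebraMap ℂ _ (c j)) 1 (by
        intro f hf
        obtain ⟨j, -, rfl⟩ := Finset.mem_image.1 hf
        rw [map_sub, map_mul, AlgHom.commutes, sub_eq_zero]
        exact hc j) (by rw [map_one]; exact one_ne_zero) 0
    refine const_nonconst (x := x n) (l := x n j₀) (c := c) (fun j => ?_) (hnc n)
    have h3 := h2 _ (Finset.mem_image_of_mem _ (Finset.mem_univ j))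
    rw [Pi.sub_apply, Pi.mul_apply, sub_eq_zero] at h3
    exact h3

end Pool.Agent.Run7.h789.SM
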