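import Pool.Agent.Run7.h789.SM.Fin
import Pool.Agent.Q103.SF.Disc

/-!
# Degrees and subvarieties
-/

set_option autoImplicit false
set_option synthInstance.maxHeartbeats 400000

open MvPolynomial FF

namespace Pool.Agent.Run7.h789.SM

open Pool.Agent.W602.Cov.R (BiSet BiPoly BiHom)
open Pool.Agent.W602.GT (coords GeneralType)
open Pool.Agent.W603.LV
open Pool.Agent.W603.PV
open Pool.Agent.Q96.HE (SameCurve eul curve_map exists_curve)
open Pool.Agent.Q96.LS (LiesIn CentreIn Norm)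
open Pool.Agent.Q103.SF (gt_of_canDeg)

variable {N M : ℕ}

/-- The closed curves of geometric genus at most one in `X`, each given by the forms which vanish on
it. -/
def lowC (X : BiSet N M) : Set (Set (BiPoly N M)) :=
  {W | ∃ (L : Type) (_ : Field L) (_ : Algebra ℂ L) (_ : IsFF ℂ L) (a : Fin (N + 1) → L)
    (x : Fin (M + 1) → L), X.Mem a x ∧ coords ℂ a ⊔ coords ℂ x = ⊤ ∧ canDeg ℂ L ≤ 0 ∧
    W = vanP a x}

/-- the properties of the second component -/
structure Eng (X : BiSet N M) (A : ℕ) : Prop where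
  curve : ∀ (L : Type) [Field L] [Algebra ℂ L] [IsFF ℂ L] (a : Fin (N + 1) → L)
    (x : Fin (M + 1) → L), X.Mem a x → pht ℂ x ≤ A * max (canDeg ℂ L) 0
  sub : ∀ (L : Type) [Field L] [Algebra ℂ L] (a : Fin (N + 1) → L) (x : Fin (M + 1) → L) (w : ℕ),
    X.Mem a x → Algebra.IsAlgebraic (coords ℂ x) L → Algebra.trdeg ℂ L = w → 0 < w →
    GeneralType ℂ L w
  entire : ∀ (u : ℂ → Fin (N + 1) → ℂ) (v : ℂ → Fin (M + 1) → ℂ), Differentiable ℂ u →
    Differentiable ℂ v → (∀ z, X.Mem (u z) (v z)) → ∀ z z', ∃ s : ℂ, v z' = s • v z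

/-- no place has its centre in the empty set -/
theorem not_centre {m : ℕ} {L : Type} [Field L] [Algebra ℂ L] {v : Fin (m + 1) → L}
    (hv : ∃ j, v j ≠ 0) (P : Place ℂ L) :
    ¬ CentreIn ({1} : Set (MvPolynomial (Fin (m + 1)) ℂ)) v P := by
  classical
  intro h
  obtain ⟨j0, hj0⟩ := hv
  let s : Finset (Fin (m + 1)) := Finset.univ.filter fun j => v j ≠ 0
  have hs : s.Nonempty := ⟨j0, Finset.mem_filter.2 ⟨Finset.mem_univ _, hj0⟩⟩
  obtain ⟨j, hj, hmin⟩ := s.exists_min_image (fun j => P.ord (v j)) hs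
  have hN : Norm P v (P.ord (v j)) := ⟨fun i hi =>
    hmin i (Finset.mem_filter.2 ⟨Finset.mem_univ _, hi⟩), j, (Finset.mem_filter.1 hj).2, rfl⟩
  rcases h _ hN 1 rfl 0 (MvPolynomial.isHomogeneous_one _ _) with h1 | h1
  · rw [map_one] at h1
    exact one_ne_zero h1
  · rw [map_one, P.ord_one] at h1
    simp at h1

theorem eul_one {m : ℕ} {L : Type} [Field L] [Algebra ℂ L] [IsFF ℂ L] {v : Fin (m + 1) → L}
    (hv : ∃ j, v j ≠ 0) :
    eul ({1} : Set (MvPolynomial (Fin (m + 1)) ℂ)) v = canDeg ℂ L := by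
  unfold eul
  have h1 : {P : Place ℂ L | CentreIn ({1} : Set (MvPolynomial (Fin (m + 1)) ℂ)) v P} = ∅ := by
    ext P
    simp only [Set.mem_ofPred_eq, Set.mem_empty_iff_false, iff_false]
    exact not_centre hv P
  rw [h1, Set.ncard_empty]
  simp

theorem not_lies {m : ℕ} {L : Type} [Field L] [Algebra ℂ L] {v : Fin (m + 1) → L} :
    ¬ LiesIn ({1} : Set (MvPolynomial (Fin (m + 1)) ℂ)) v := by
  intro h
  have h1 := h 1 rfl
  rw [map_one] at h1
  exact one_ne_zero h1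

/-- curves over a given curve -/
theorem curve_map' {m : ℕ} {E L : Type} [Field E] [Algebra ℂ E] [IsFF ℂ E] [Field L] [Algebra ℂ L]
    [IsFF ℂ L] {w : Fin (m + 1) → E} {v : Fin (m + 1) → L} (hw0 : ∃ j, w j ≠ 0)
    (hw : coords ℂ w = ⊤) (hv : ∃ j, v j ≠ 0) (h : Same w v) :
    ∃ r : ℕ, 0 < r ∧ pht ℂ v = r * pht ℂ w ∧ r * canDeg ℂ E ≤ canDeg ℂ L := by
  obtain ⟨r, h1, h2, h3⟩ := curve_map (w := w) (v := v) ⟨hw0, hw⟩ hv h
    ({1} : Set (MvPolynomial (Fin (m + 1)) ℂ)) (by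
      intro F hF
      rw [Set.mem_singleton_iff] at hF
      rw [hF]
      exact ⟨0, MvPolynomial.isHomogeneous_one _ _⟩) not_lies
  rw [eul_one hw0, eul_one hv] at h3
  exact ⟨r, h1, h2, h3⟩

theorem pht_const {m : ℕ} {L : Type} [Field L] [Algebra ℂ L] [IsFF ℂ L] {v : Fin (m + 1) → L}
    (hv : ∃ j, v j ≠ 0) (h : ¬ Nonconst v) : pht ℂ v ≤ 0 := by
  by_contra hcon
  exact h (Pool.Agent.Q96.OS.nonconst_of_pht hv (not_le.1 hcon))

theorem coords_bot {m : ℕ} {L : Type} [Field L] [Algebra ℂ L] {x : Fin (m + 1) → L}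
    (hx : x ≠ 0) (h : ¬ Nonconst x) : coords ℂ x = ⊥ := by
  obtain ⟨j₀, hj'⟩ := Function.ne_iff.1 hx
  have hj : x j₀ ≠ 0 := hj'
  obtain ⟨e, -, he⟩ := not_nonconst h hj
  rw [eq_bot_iff]
  unfold coords
  rw [IntermediateField.adjoin_le_iff]
  rintro _ ⟨i, j, hj, rfl⟩
  refine IntermediateField.mem_bot.2 ⟨e i / e j, ?_⟩
  rw [he i, he j, mul_div_mul_left _ _ hj', map_div₀]

/-- the low curves are contracted -/
theorem low_ctr {X : BiSet N M} {A : ℕ} (hE : Eng X A) {L : Type} [Field L] [Algebra ℂ L]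
    [IsFF ℂ L] {a : Fin (N + 1) → L} {x : Fin (M + 1) → L} (hm : X.Mem a x)
    (htop : coords ℂ a ⊔ coords ℂ x = ⊤) (hc : canDeg ℂ L ≤ 0) :
    ¬ Nonconst x ∧ coords ℂ a = ⊤ ∧ Nonconst a := by
  have h1 := hE.curve L a x hm
  rw [max_eq_right hc, mul_zero] at h1
  have h2 : ¬ Nonconst x := fun h => absurd (Pool.Agent.Q96.LS.pht_pos x h) (not_lt.2 h1)
  rw [coords_bot hm.2.1 h2, sup_bot_eq] at htop
  refine ⟨h2, htop, ?_⟩
  exact Pool.Agent.Q96.LS.nonconst_of ⟨Function.ne_iff.1 hm.1, htop⟩ (by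
    rw [IsFF.trdeg (k := ℂ) (K := L)]
    simp)

theorem low_sub_ctr {X : BiSet N M} {A : ℕ} (hE : Eng X A) : lowC X ⊆ ctr X := by
  rintro W ⟨L, _, _, _, a, x, hm, htop, hc, rfl⟩
  obtain ⟨h1, -, h2⟩ := low_ctr hE hm htop hc
  exact ⟨L, inferInstance, inferInstance, a, x, hm, h1, h2, rfl⟩

/-- **(C)** Closed subvarieties. -/
theorem low_sub {X : BiSet N M} (hX : Small X) {A : ℕ} (hE : Eng X A) (L : Type) [Field L]
    [Algebra ℂ L] (a : Fin (N + 1) → L) (x : Fin (M + 1) → L) (w : ℕ) (hm : X.Mem a x)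
    (htop : coords ℂ a ⊔ coords ℂ x = ⊤) (htr : Algebra.trdeg ℂ L = w) (hw : 0 < w) :
    GeneralType ℂ L w ∨ vanP a x ∈ lowC X := by
  rcases small_split hX hm with h1 | ⟨h1, h2⟩
  · left
    refine hE.sub L a x w hm ?_ htr hw
    have h6 : coords ℂ a ⊔ coords ℂ x ≤
        (algebraicClosure (coords ℂ x) L).restrictScalars ℂ := by
      refine sup_le ?_ ?_
      · unfold coords
        rw [IntermediateField.adjoin_le_iff]
        rintro _ ⟨i, j, -, rfl⟩
        exact mem_algebraicClosure_iff.2 (h1 i j)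
      · intro z hz
        exact mem_algebraicClosure_iff.2
          (isAlgebraic_algebraMap (R := coords ℂ x) (A := L) (⟨z, hz⟩ : coords ℂ x))
    rw [htop] at h6
    exact ⟨fun z => mem_algebraicClosure_iff.1 (h6 (IntermediateField.mem_top (x := z)))⟩
  · rw [coords_bot hm.2.1 h1, sup_bot_eq] at htop
    have h3 : Algebra.trdeg ℂ L ≤ 1 := by
      rw [htop] at h2
      refine le_trans ?_ h2
      exact trdeg_le_of_injective
        ((IntermediateField.topEquiv (F := ℂ) (E := L)).symm : L →ₐ[ℂ] _)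
        (IntermediateField.topEquiv (F := ℂ) (E := L)).symm.injective
    have h4 : w = 1 := by
      rw [htr] at h3
      have h5 : w ≤ 1 := by exact_mod_cast h3
      omega
    subst h4
    have hff : IsFF ℂ L := ⟨Pool.Agent.Q72.NA.ess_of_adjoin htop, by rw [htr]; simp⟩
    rcases le_or_gt (canDeg ℂ L) 0 with h5 | h5
    · right
      exact ⟨L, inferInstance, inferInstance, hff, a, x, hm, by
        rw [coords_bot hm.2.1 h1, sup_bot_eq, htop], h5, rfl⟩
    · left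
      exact gt_of_canDeg h5

/-- **(D)** Degrees. -/
theorem low_deg {X : BiSet N M} (hX : Small X) {A : ℕ} (hE : Eng X A) :
    ∃ A' : ℕ, ∀ (L : Type) [Field L] [Algebra ℂ L] [IsFF ℂ L] (a : Fin (N + 1) → L)
      (x : Fin (M + 1) → L), X.Mem a x →
      pht ℂ a + pht ℂ x ≤ A' * max (canDeg ℂ L) 0 ∨ vanP a x ∈ lowC X := by
  classical
  obtain ⟨C, hC⟩ := small_hgt hX
  have hfin := ctr_fin hX
  let Rep : Set (BiPoly N M) → ℕ → Prop := fun W h =>
    ∃ (E : Type) (_ : Field E) (_ : Algebra ℂ E) (_ : IsFF ℂ E) (w : Fin (N + 1) → E)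
      (c : Fin (M + 1) → ℂ), (∃ j, w j ≠ 0) ∧ coords ℂ w = ⊤ ∧ c ≠ 0 ∧
      vanP w (fun j => algebraMap ℂ E (c j)) = W ∧ pht ℂ w = h
  let ht : Set (BiPoly N M) → ℕ := fun W => if h : ∃ k, Rep W k then h.choose else 0
  have hht : ∀ W, (∃ k, Rep W k) → Rep W (ht W) := by
    intro W h
    simp only [ht, dif_pos h]
    exact h.choose_spec
  refine ⟨(C + 1) * A + ∑ W ∈ hfin.toFinset, ht W, fun L _ _ _ a x hm => ?_⟩
  have hmax : 0 ≤ max (canDeg ℂ L) 0 := le_max_right _ _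
  have hx0 := Function.ne_iff.1 hm.2.1
  have ha0 := Function.ne_iff.1 hm.1
  have hsum : (0 : ℤ) ≤ ∑ W ∈ hfin.toFinset, (ht W : ℤ) :=
    Finset.sum_nonneg fun _ _ => Int.natCast_nonneg _
  by_cases hnx : Nonconst x
  · left
    have h1 := hC L a x hm hnx
    have h2 := hE.curve L a x hm
    have h3 : (0 : ℤ) ≤ C := Int.natCast_nonneg _
    push_cast
    nlinarith [mul_nonneg hsum hmax, mul_le_mul_of_nonneg_left h2 h3]
  have hpx := pht_const hx0 hnx
  by_cases hna : Nonconst a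
  swap
  · left
    have h1 := pht_const ha0 hna
    have h2 : (0 : ℤ) ≤ ((C + 1) * A + ∑ W ∈ hfin.toFinset, ht W : ℕ) * max (canDeg ℂ L) 0 :=
      mul_nonneg (Int.natCast_nonneg _) hmax
    linarith
  -- contracted curves
  have hW : vanP a x ∈ ctr X := ⟨L, inferInstance, inferInstance, a, x, hm, hnx, hna, rfl⟩
  obtain ⟨j₀, hj⟩ := hx0
  obtain ⟨c₀, hc₀, hc₀x⟩ := not_nonconst hnx hj
  have hrep : ∃ k, Rep (vanP a x) k := by
    obtain ⟨E, _, _, _, w, hw, hs⟩ := exists_curve hna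
    have hnc0 : Pool.Agent.Q271.RC.Nonconst w := Pool.Agent.Q96.LS.nonconst_of hw (by
      rw [IsFF.trdeg (k := ℂ) (K := E)]
      simp)
    refine ⟨(pht ℂ w).toNat, E, inferInstance, inferInstance, inferInstance, w, c₀, hw.1, hw.2,
      fun h => ?_, ?_, (Int.toNat_of_nonneg (Pool.Agent.Q96.LS.pht_pos w hnc0).le).symm⟩
    · rw [h] at hc₀
      exact zero_ne_one hc₀
    · exact vanP_eq (l := (1 : E)) (l' := x j₀) (c := c₀) hs one_ne_zero hj
        (fun j => by rw [one_mul]) hc₀x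
  obtain ⟨E, _, _, _, w, c, hw0, hw, hc, hvan, hph⟩ := hht _ hrep
  have hsame : Same w a := same_of_vanP hvan
  obtain ⟨r, hr, hr1, hr2⟩ := curve_map' hw0 hw ha0 hsame
  by_cases hle : canDeg ℂ E ≤ 0
  · right
    refine ⟨E, inferInstance, inferInstance, inferInstance, w, fun j => algebraMap ℂ E (c j),
      ⟨Function.ne_iff.2 hw0, fun h => hc ?_, fun G hG => ?_⟩, ?_, hle, hvan.symm⟩
    · funext j
      exact (map_eq_zero (algebraMap ℂ E)).1 (congrFun h j)
    · have h1 : G ∈ vanP a x := ⟨X.hom G hG, hm.2.2 G hG⟩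
      rw [← hvan] at h1
      exact h1.2
    · rw [hw, top_sup_eq]
  · left
    rw [not_le] at hle
    have h1 : (ht (vanP a x) : ℤ) ≤ ∑ W ∈ hfin.toFinset, (ht W : ℤ) := by
      have h2 : ht (vanP a x) ≤ ∑ W ∈ hfin.toFinset, ht W :=
        Finset.single_le_sum (f := fun W => ht W) (fun _ _ => Nat.zero_le _)
          (hfin.mem_toFinset.2 hW)
      exact_mod_cast h2
    have hr' : (0 : ℤ) < r := by exact_mod_cast hr
    have h3 : (r : ℤ) ≤ canDeg ℂ L := by nlinarith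
    have h4 : pht ℂ a ≤ ht (vanP a x) * canDeg ℂ L := by
      rw [hr1, hph, mul_comm]
      exact mul_le_mul_of_nonneg_left h3 (Int.natCast_nonneg _)
    have h5 : 0 < canDeg ℂ L := lt_of_lt_of_le hr' h3
    rw [max_eq_left h5.le]
    push_cast
    have h6 : (0 : ℤ) ≤ (C + 1) * A := by positivity
    nlinarith [mul_le_mul_of_nonneg_right h1 h5.le, mul_nonneg h6 h5.le]

end Pool.Agent.Run7.h789.SM
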