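import Pool.Agent.Run7.h789.SM.Deg
import Pool.Agent.Q103.SF.Disc
import Pool.Agent.Q103.SF.Defs2
import Pool.Agent.Q111.SF.Cls
import Pool.Agent.Q24.SF.W3

/-!
# Entire curves
-/

set_option autoImplicit false
set_option synthInstance.maxHeartbeats 400000

open MvPolynomial FF Metric Topology Filter

namespace Pool.Agent.Run7.h789.SM

open Pool.Agent.W602.Cov.R (BiSet BiPoly BiHom)
open Pool.Agent.W602.GT (coords GeneralType IsForm val)
open Pool.Agent.W603.LV (canDeg)
open Pool.Agent.W603.BP (Extends sin_curve sin_point)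
open Pool.Agent.Y221.AP (MK MInf MI)
open Pool.Agent.Y221.PD (EssentialDisc curve_of_entire)
open Pool.Agent.Y221.BD (EntireCurve)
open Pool.Agent.Q103.SF (S_gpc S_wei S_low S_cls exists_mk gt_of_canDeg IsElliptic)

variable {N M : ℕ}

/-- entire curves give punctured discs with an essential singularity -/
theorem disc_of_entire {m : ℕ} {K : Type} [Field K] [Algebra ℂ K] {x : Fin (m + 1) → K}
    {f : Fin (m + 1) → ℂ → ℂ} (hf : EntireCurve x f) :
    EssentialDisc x (fun w i => f i (Complex.sin w⁻¹)) := by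
  obtain ⟨f', hf'⟩ : ∃ f' : ℂ → Fin (m + 1) → ℂ, ∀ t i, f' t i = f i t := ⟨fun t i => f i t,
    fun _ _ => rfl⟩
  have hfe : ∀ t, f' t = fun i => f i t := fun t => funext (hf' t)
  have hne : ∀ t, f' t ≠ 0 := by
    intro t h0
    obtain ⟨i, hi⟩ := hf.ne t
    apply hi
    rw [← hf', h0]
    rfl
  have hE : Pool.Agent.H159R3.GGLLog.EntireCurve (ι := Empty) ∅ (fun e => e.elim) f' := by
    refine ⟨?_, fun z => ⟨hne z, fun j hj => absurd hj (Set.notMem_empty j), fun e => e.elim⟩, ?_⟩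
    · rw [differentiable_pi]
      intro i
      have : (fun t => f' t i) = f i := funext fun t => hf' t i
      rw [this]
      exact hf.hol i
    · obtain ⟨i, j, a, b, hab⟩ := hf.nonconst
      refine ⟨a, b, fun c hc => hab ?_⟩
      have h1 : ∀ l, f l a = c * f l b := by
        intro l
        have := congrFun hc l
        rw [hf', Pi.smul_apply, hf', smul_eq_mul] at this
        exact this
      rw [h1 i, h1 j]
      ring
  obtain ⟨⟨h1, h2⟩, h3⟩ := sin_curve hE
  have hD : EssentialDisc x (fun w => f' (Complex.sin w⁻¹)) := by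
    refine ⟨fun i => ?_, fun t _ => hne _, fun G hG hxG t _ => ?_, h3⟩
    · exact fun t ht => (differentiableWithinAt_pi.mp (h1 t ht)) i
    · show MvPolynomial.eval (f' (Complex.sin t⁻¹)) G = 0
      rw [hfe]
      exact hf.mem G hG hxG _
  have h4 : (fun w => f' (Complex.sin w⁻¹)) = fun w i => f i (Complex.sin w⁻¹) := by
    funext w i
    exact hf' _ _
  rwa [h4] at hD

/-- an entire curve as a point over the field of the functions which are meromorphic near infinity -/
theorem exists_pt {m : ℕ} {K : Type} [Field K] [Algebra ℂ K] {x : Fin (m + 1) → K}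
    {f : Fin (m + 1) → ℂ → ℂ} (hf : EntireCurve x f) :
    ∃ z : Fin (m + 1) → MK, (∀ G : MvPolynomial (Fin (m + 1)) ℂ, aeval z G = 0 ↔
      ∀ t, eval (fun i => f i t) G = 0) ∧ ∃ j k, z k ≠ 0 ∧ ¬ MInf (z j / z k) := by
  obtain ⟨z, hz, hjk⟩ := exists_mk (disc_of_entire hf)
  refine ⟨z, fun G => ?_, hjk⟩
  have h1 := hz G
  unfold Pool.Agent.W602.GT.val at h1
  rw [h1]
  constructor
  · intro h t
    obtain ⟨w, hw, hws⟩ := sin_point t
    have h3 := h w hw
    simp only [hws] at h3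
    exact h3
  · intro h t _
    exact h _

/-- the closure of the image of an entire curve has genus at least two, or is not a curve -/
theorem field_low (hG1 : S_gpc) {m : ℕ} {z : Fin (m + 1) → MK} {j k : Fin (m + 1)} (hk : z k ≠ 0)
    (hjk : ¬ MInf (z j / z k)) (htr : Algebra.trdeg ℂ (coords ℂ z) ≤ 1) :
    ∃ (_ : IsFF ℂ (coords ℂ z)) (w : Fin (m + 1) → coords ℂ z), w ≠ 0 ∧ coords ℂ w = ⊤ ∧
      Same w z ∧ canDeg ℂ (coords ℂ z) ≤ 0 := by
  have hnc : Nonconst z := by
    by_contra h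
    obtain ⟨c, -, hc⟩ := not_nonconst h hk
    apply hjk
    have h1 : z j / z k = algebraMap ℂ MK (c j) := by
      rw [hc j]
      field_simp
    rw [h1]
    exact MI.algebraMap_mem (c j)
  obtain ⟨-, hff⟩ := isFF_of hk hnc htr
  obtain ⟨w, hw, hgen⟩ := gen_sub z hk
  refine ⟨hff, w, ?_, hgen, same_sub hk hw, ?_⟩
  · intro h0
    have h2 := hw k
    rw [h0, div_self hk] at h2
    exact zero_ne_one h2
  · by_contra hcon
    rw [not_le] at hcon
    have hess : Algebra.EssFiniteType ℂ (coords ℂ z) := hff.ess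
    have h1 := hG1 (coords ℂ z) (gt_of_canDeg hcon) (w j)
    apply hjk
    rw [← hw j]
    exact h1

/-- the fibres of the second projection have dimension at most one -/
def Fib (X : BiSet N M) : Prop :=
  ∀ (L : Type) [Field L] [Algebra ℂ L] (a : Fin (N + 1) → L) (x : Fin (M + 1) → L), X.Mem a x →
    ¬ Nonconst x → Algebra.trdeg ℂ (coords ℂ a) ≤ 1

theorem fib_of_small {X : BiSet N M} (hX : Small X) : Fib X := by
  intro L _ _ a x hm hx
  rcases small_split hX hm with h1 | ⟨-, h1⟩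
  · obtain ⟨i₀, hi⟩ := Function.ne_iff.1 hm.1
    have hbot : coords ℂ x = ⊥ := coords_bot hm.2.1 hx
    obtain ⟨e, -, he⟩ := const_of hi fun i => alg_bot hbot.le (h1 i i₀)
    rw [coords_bot hm.1 (const_nonconst he)]
    have h2 : Algebra.IsAlgebraic ℂ (⊥ : IntermediateField ℂ L) :=
      ⟨fun z => by
        obtain ⟨w, hw⟩ := IntermediateField.mem_bot.1 z.2
        have h3 : z = algebraMap ℂ (⊥ : IntermediateField ℂ L) w := Subtype.ext hw.symm
        rw [h3]
        exact isAlgebraic_algebraMap w⟩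
    rw [trdeg_eq_zero]
    exact zero_le_one
  · exact h1

/-- **(E)** Entire curves. -/
theorem low_ent (hG1 : S_gpc) {X : BiSet N M} (hX : Fib X) {A : ℕ} (hE : Eng X A)
    {u : ℂ → Fin (N + 1) → ℂ} {v : ℂ → Fin (M + 1) → ℂ} (hu : Differentiable ℂ u)
    (hv : Differentiable ℂ v) (hmem : ∀ z, X.Mem (u z) (v z)) {z₀ z₁ : ℂ}
    (hnc : ¬ ∃ s : ℂ, u z₁ = s • u z₀) :
    {G : BiPoly N M | (∃ D D', BiHom G D D') ∧ ∀ z, eval (Sum.elim (u z) (v z)) G = 0} ∈
      lowC X := by
  classical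
  have hconst := hE.entire u v hu hv hmem
  obtain ⟨c, hc⟩ : ∃ c, c = v 0 := ⟨_, rfl⟩
  have hc0 : c ≠ 0 := by
    rw [hc]
    exact (hmem 0).2.1
  have hs : ∀ t, ∃ s : ℂ, s ≠ 0 ∧ ∀ j, v t j = s * algebraMap ℂ ℂ (c j) := by
    intro t
    obtain ⟨s, hs⟩ := hconst 0 t
    refine ⟨s, ?_, fun j => ?_⟩
    · rintro rfl
      exact (hmem t).2.1 (by rw [hs, zero_smul])
    · rw [hs, hc]
      rfl
  have hval : ∀ {G : BiPoly N M} {D D' : ℕ}, BiHom G D D' → ∀ t,
      (eval (Sum.elim (u t) (v t)) G = 0 ↔ eval (u t) (spec c G) = 0) := by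
    intro G D D' hG t
    obtain ⟨s, hs0, hs1⟩ := hs t
    have h1 := val_const (u t) hs1 hG
    rw [aeval_eq_eval, aeval_eq_eval] at h1
    rw [h1, mul_eq_zero, or_iff_right (pow_ne_zero _ hs0)]
  -- the generic point of projective space
  let Z := FractionRing (MvPolynomial (Fin (N + 1)) ℂ)
  let ξ : Fin (N + 1) → Z := fun i => algebraMap (MvPolynomial (Fin (N + 1)) ℂ) Z (MvPolynomial.X i)
  have hξ : ∀ G : MvPolynomial (Fin (N + 1)) ℂ, val ξ G = 0 → G = 0 := by
    intro G hG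
    have h1 : val ξ G = algebraMap (MvPolynomial (Fin (N + 1)) ℂ) Z G := by
      unfold Pool.Agent.W602.GT.val
      have h2 := aeval_algebraMap_apply (R := ℂ) Z
        (MvPolynomial.X : Fin (N + 1) → MvPolynomial (Fin (N + 1)) ℂ) G
      rw [aeval_X_left_apply] at h2
      exact h2
    rw [h1] at hG
    exact (IsFractionRing.injective (MvPolynomial (Fin (N + 1)) ℂ) Z) (by rw [hG, map_zero])
  have hf : EntireCurve ξ (fun i t => u t i) := by
    refine ⟨fun i => differentiable_pi.1 hu i, fun t => Function.ne_iff.1 (hmem t).1,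
      fun G _ hG t => ?_, ?_⟩
    · rw [hξ G hG, map_zero]
    · by_contra hcon
      push Not at hcon
      apply hnc
      obtain ⟨i₀, hi₀⟩ := Function.ne_iff.1 (hmem z₀).1
      have hi₀' : u z₀ i₀ ≠ 0 := hi₀
      refine ⟨u z₁ i₀ / u z₀ i₀, funext fun i => ?_⟩
      rw [Pi.smul_apply, smul_eq_mul]
      have h1 := hcon i i₀ z₁ z₀
      field_simp
      linear_combination h1
  obtain ⟨z, hz, j, k, hk, hjk⟩ := exists_pt hf
  have hzm : X.Mem z (fun j => algebraMap ℂ MK (c j)) := by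
    refine ⟨Function.ne_iff.2 ⟨k, hk⟩, fun h => hc0 ?_, fun G hG => ?_⟩
    · funext j
      exact (map_eq_zero (algebraMap ℂ MK)).1 (congrFun h j)
    · obtain ⟨D, D', hD⟩ := X.hom G hG
      rw [← spec_val, hz]
      intro t
      rw [← hval hD t]
      exact (hmem t).2.2 G hG
  have hcc : ∀ j, (fun j => algebraMap ℂ MK (c j)) j = 1 * algebraMap ℂ MK (c j) := fun j => by
    rw [one_mul]
  have htr : Algebra.trdeg ℂ (coords ℂ z) ≤ 1 := hX _ z _ hzm (const_nonconst hcc)
  obtain ⟨hff, w, hw0, hwgen, hsame, hcd⟩ := field_low hG1 hk hjk htr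
  refine ⟨coords ℂ z, inferInstance, inferInstance, hff, w,
    fun j => algebraMap ℂ (coords ℂ z) (c j), ⟨hw0, fun h => hc0 ?_, fun G hG => ?_⟩, ?_, hcd, ?_⟩
  · funext j
    exact (map_eq_zero (algebraMap ℂ (coords ℂ z))).1 (congrFun h j)
  · obtain ⟨D, D', hD⟩ := X.hom G hG
    rw [← spec_val, hsame _ D (spec_hom hD c), spec_val]
    exact hzm.2.2 G hG
  · rw [hwgen, top_sup_eq]
  · ext G
    refine and_congr_right fun hG => ?_
    obtain ⟨D, D', hD⟩ := hG
    rw [← spec_val, hsame _ D (spec_hom hD c), hz]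
    exact forall_congr' fun t => hval hD t

/-- a zero free entire curve in the closure of a point -/
theorem curve_of_u {m : ℕ} {L : Type} [Field L] [Algebra ℂ L] {v : Fin (m + 1) → L}
    (hn : Nonconst v) {u : Fin (m + 1) → ℂ → ℂ} (hu : ∀ i, Differentiable ℂ (u i))
    (hG : ∀ G : MvPolynomial (Fin (m + 1)) ℂ, IsForm G →
      ((∀ t, eval (fun i => u i t) G = 0) ↔ aeval v G = 0)) : ∃ f, EntireCurve v f := by
  classical
  obtain ⟨i, j, hj, hij⟩ := hn
  have hX : ∀ i, IsForm (X i : MvPolynomial (Fin (m + 1)) ℂ) := fun i =>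
    ⟨1, isHomogeneous_X ℂ i⟩
  obtain ⟨a, ha⟩ : ∃ a, u j a ≠ 0 := by
    by_contra hcon
    push Not at hcon
    apply hj
    have h1 := (hG (X j) (hX j)).1 (fun t => by
      rw [eval_X]
      exact hcon t)
    rwa [aeval_X] at h1
  obtain ⟨b, hb⟩ : ∃ b, u i a * u j b ≠ u j a * u i b := by
    by_contra hcon
    push Not at hcon
    have hF : IsForm (C (u i a) * X j - C (u j a) * X i : MvPolynomial (Fin (m + 1)) ℂ) := by
      refine ⟨1, ?_⟩
      have h1 := (isHomogeneous_C (Fin (m + 1)) (u i a)).mul (isHomogeneous_X ℂ j)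
      have h2 := (isHomogeneous_C (Fin (m + 1)) (u j a)).mul (isHomogeneous_X ℂ i)
      rw [zero_add] at h1 h2
      exact h1.sub h2
    have h1 := (hG _ hF).1 (fun t => by
      simp only [map_sub, map_mul, eval_C, eval_X]
      rw [hcon t, sub_self])
    simp only [map_sub, map_mul, aeval_X, algHom_C] at h1
    apply hij
    have h2 : v i / v j = algebraMap ℂ L (u i a / u j a) := by
      have h3 : algebraMap ℂ L (u j a) ≠ 0 := (map_ne_zero _).2 ha
      rw [map_div₀, div_eq_div_iff hj h3]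
      linear_combination -h1
    rw [h2]
    exact isAlgebraic_algebraMap _
  obtain ⟨f, hf, -⟩ := curve_of_entire (x := v) hu
    (fun G hGf hxG t => (hG G hGf).2 hxG t) hb
  exact ⟨f, hf⟩

/-- **(F)** Curves of genus at most one are images of entire curves. -/
theorem ent_of_low (hw : S_wei) {X : BiSet N M} {A : ℕ} (hE : Eng X A) {W : Set (BiPoly N M)}
    (hW : W ∈ lowC X) : ∃ (u : ℂ → Fin (N + 1) → ℂ) (c : Fin (M + 1) → ℂ), Differentiable ℂ u ∧
      (∀ z, X.Mem (u z) c) ∧ ∃ z₀ z₁, ¬ ∃ s : ℂ, u z₁ = s • u z₀ := by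
  classical
  have hlow : S_low := Pool.Agent.Q24.SF.low_curve hw Pool.Agent.Q111.SF.cls
  obtain ⟨L, _, _, _, a, x, hm, htop, hcd, rfl⟩ := hW
  obtain ⟨h1, h2, h3⟩ := low_ctr hE hm htop hcd
  obtain ⟨j₀, hj⟩ := Function.ne_iff.1 hm.2.1
  obtain ⟨c, hc0, hc⟩ := not_nonconst h1 hj
  obtain ⟨u, hu, huG⟩ := hlow L hcd N a hm.1 h2
  obtain ⟨f, hf⟩ := curve_of_u h3 hu huG
  refine ⟨fun t i => f i t, c, differentiable_pi.2 hf.hol, fun t => ⟨Function.ne_iff.2 (hf.ne t),
    fun h => ?_, fun G hG => ?_⟩, ?_⟩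
  · rw [h] at hc0
    exact zero_ne_one hc0
  · obtain ⟨D, D', hD⟩ := X.hom G hG
    have h4 := val_const a hc hD
    rw [hm.2.2 G hG] at h4
    have h5 : aeval a (spec c G) = 0 := (mul_eq_zero.1 h4.symm).resolve_left (pow_ne_zero _ hj)
    have h6 := hf.mem (spec c G) ⟨D, spec_hom hD c⟩ h5 t
    have h7 := spec_val c G (fun i => f i t)
    rw [aeval_eq_eval] at h7
    exact h7.symm.trans h6
  · obtain ⟨i, j, p, q, hpq⟩ := hf.nonconst
    refine ⟨q, p, ?_⟩
    rintro ⟨s, hs⟩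
    apply hpq
    have h4 : ∀ l, f l p = s * f l q := fun l => congrFun hs l
    rw [h4 i, h4 j]
    ring

/-- function fields of elliptic curves -/
theorem ell_canDeg (hw : S_wei) (hG1 : S_gpc) {E : Type} [Field E] [Algebra ℂ E] [IsFF ℂ E]
    (hE : IsElliptic E) : canDeg ℂ E ≤ 0 := by
  classical
  obtain ⟨a, b, x, y, hab, hxy, hgen⟩ := hE
  obtain ⟨P, Q, R, hP, hQ, hR, hPQ, hc⟩ := hw a b hab
  let v : Fin (2 + 1) → E := ![1, x, y]
  have hv0 : v 0 = 1 := rfl
  have hvgen : coords ℂ v = ⊤ := by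
    rw [eq_top_iff, ← hgen]
    refine IntermediateField.adjoin_le_iff.2 ?_
    rintro z (rfl | hz)
    · exact IntermediateField.subset_adjoin _ _ ⟨1, 0, by rw [hv0]; exact one_ne_zero, by
        rw [hv0, div_one]; rfl⟩
    · rw [Set.mem_singleton_iff] at hz
      exact IntermediateField.subset_adjoin _ _ ⟨2, 0, by rw [hv0]; exact one_ne_zero, by
        rw [hv0, div_one, hz]; rfl⟩
  have hv : Pool.Agent.Q271.RC.IsGeneric v := ⟨⟨0, by rw [hv0]; exact one_ne_zero⟩, hvgen⟩
  have hnc : Nonconst v := Pool.Agent.Q96.LS.nonconst_of hv (by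
    rw [IsFF.trdeg (k := ℂ) (K := E)]
    simp)
  obtain ⟨f, hf, hG⟩ := Pool.Agent.Q24.SF.W3h.ell_case IsFF.trdeg hxy hgen hP hQ hR hPQ hc v
  obtain ⟨g, hg⟩ := curve_of_u hnc hf (fun G hG' => by
    obtain ⟨d, hd⟩ := hG'
    exact hG d G hd)
  obtain ⟨z, hz, j, k, hk, hjk⟩ := exists_pt hg
  -- the point over the meromorphic functions has the same closure
  by_contra hcon
  rw [not_le] at hcon
  have hpt : Pool.Agent.Q271.RC.IsPoint v z := fun G D hGD hGv =>
    (hz G).2 fun t => hg.mem G ⟨D, hGD⟩ hGv t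
  obtain ⟨w, hw', hwgen⟩ := gen_sub z hk
  have hwk : w k ≠ 0 := by
    intro h0
    have h2 := hw' k
    rw [h0, div_self hk] at h2
    exact zero_ne_one h2
  have hsame := same_sub hk hw'
  have htE : Algebra.trdeg ℂ E = (1 : ℕ) := by
    rw [IsFF.trdeg (k := ℂ) (K := E)]
    simp
  have hncz : Nonconst z := by
    by_contra h
    obtain ⟨c, -, hc⟩ := not_nonconst h hk
    apply hjk
    have h1 : z j / z k = algebraMap ℂ MK (c j) := by
      rw [hc j]
      field_simp
    rw [h1]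
    exact MI.algebraMap_mem (c j)
  obtain ⟨t, ht⟩ := Pool.Agent.Q103.SF.exists_trdeg_of_gen hwgen
  obtain ⟨h4, h5⟩ := Pool.Agent.Q96.OS.gen_point' hv htE _ w t (fun G D hGD hGv =>
    (hsame G D hGD).2 (hpt G D hGD hGv)) ⟨⟨k, hwk⟩, hwgen⟩ ht
  have h6 : t ≠ 0 := by
    intro h0
    rw [h0, Nat.cast_zero, trdeg_eq_zero_iff] at ht
    obtain ⟨i, j, hj, htr⟩ := hncz
    apply htr
    have h7 : z i / z j ∈ coords ℂ z := IntermediateField.subset_adjoin _ _ ⟨i, j, hj, rfl⟩
    exact (ht.isAlgebraic ⟨z i / z j, h7⟩).algebraMap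
  obtain ⟨σ, l, hl, hσ, -⟩ := h5 (by omega)
  let τ : E →ₐ[ℂ] MK := (coords ℂ z).val.comp σ
  let _ : Algebra E MK := τ.toRingHom.toAlgebra
  have htow : IsScalarTower ℂ E MK := IsScalarTower.of_algebraMap_eq' τ.comp_algebraMap.symm
  have hess : Algebra.EssFiniteType ℂ E := IsFF.ess
  have h7 := hG1 E (gt_of_canDeg hcon) (v j / v k)
  apply hjk
  have h8 : algebraMap E MK (v j / v k) = z j / z k := by
    change τ (v j / v k) = _
    have h9 : ∀ i, τ (v i) * (l : MK) = z i / z k := by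
      intro i
      rw [← hw' i, hσ i]
      change ((σ (v i) : coords ℂ z) : MK) * (l : MK) = ((l * σ (v i) : coords ℂ z) : MK)
      rw [mul_comm]
      rfl
    have hl' : (l : MK) ≠ 0 := fun h => hl (Subtype.ext h)
    have h10 : z j / z k = (z j / z k) / (z k / z k) := by
      rw [div_self hk, div_one]
    rw [map_div₀, h10, ← h9 j, ← h9 k, mul_div_mul_right _ _ hl']
  rw [h8] at h7
  exact h7

end Pool.Agent.Run7.h789.SM
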