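import Pool.Agent.Run7.h789.SM.Ctr
import Pool.Agent.Q96.HE.Main

/-!
# Finiteness of the contracted curves, and degrees
-/

set_option autoImplicit false
set_option synthInstance.maxHeartbeats 400000

open MvPolynomial FF

namespace Pool.Agent.Run7.h789.SM

open Pool.Agent.W602.Cov.R (BiSet BiPoly BiHom)
open Pool.Agent.W602.GT (coords GeneralType)
open Pool.Agent.W603.LV
open Pool.Agent.W603.PV
open Pool.Agent.Q96.HE (SameCurve eul curve_map exists_curve)
open Pool.Agent.Q96.LS (LiesIn CentreIn Norm)

variable {N M : ℕ}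

/-- the contracted curves -/
def ctr (X : BiSet N M) : Set (Set (BiPoly N M)) :=
  {W | ∃ (L : Type) (_ : Field L) (_ : Algebra ℂ L) (a : Fin (N + 1) → L) (x : Fin (M + 1) → L),
    X.Mem a x ∧ ¬ Nonconst x ∧ Nonconst a ∧ W = vanP a x}

theorem isFF_of {m : ℕ} {Ω : Type} [Field Ω] [Algebra ℂ Ω] {a : Fin (m + 1) → Ω}
    {k : Fin (m + 1)} (hk : a k ≠ 0) (hnc : Nonconst a) (h : Algebra.trdeg ℂ (coords ℂ a) ≤ 1) :
    Algebra.trdeg ℂ (coords ℂ a) = (1 : ℕ) ∧ IsFF ℂ (coords ℂ a) := by
  obtain ⟨v, hv, hgen⟩ := gen_sub a hk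
  obtain ⟨i, j, hj, htr⟩ := hnc
  have hmem : a i / a j ∈ coords ℂ a := IntermediateField.subset_adjoin _ _ ⟨i, j, hj, rfl⟩
  have htrdeg : Algebra.trdeg ℂ (coords ℂ a) = 1 := by
    refine le_antisymm h ?_
    rw [Cardinal.one_le_iff_pos]
    have : Algebra.Transcendental ℂ (coords ℂ a) := ⟨⟨a i / a j, hmem⟩, fun h =>
      htr (h.algebraMap (A := Ω))⟩
    exact trdeg_pos ℂ (coords ℂ a)
  exact ⟨by rw [htrdeg]; simp, ⟨Pool.Agent.Q72.NA.ess_of_adjoin hgen, htrdeg⟩⟩

theorem same_sub {m : ℕ} {Ω : Type} [Field Ω] [Algebra ℂ Ω] {a : Fin (m + 1) → Ω}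
    {k : Fin (m + 1)} (hk : a k ≠ 0) {v : Fin (m + 1) → coords ℂ a}
    (hv : ∀ i, ((v i : coords ℂ a) : Ω) = a i / a k) : Same v a := by
  refine Pool.Agent.Q96.HE.sameCurve_of (coords ℂ a).val (l := a k) hk fun i => ?_
  change a i = a k * ((v i : coords ℂ a) : Ω)
  rw [hv i]
  field_simp

/-- **(B)** The contracted curves are finite in number. -/
theorem ctr_fin {X : BiSet N M} (hX : Small X) : (ctr X).Finite := by
  classical
  by_contra hinf
  have hinf' : (ctr X).Infinite := hinf
  let W : ℕ ↪ ctr X := hinf'.natEmbedding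
  have hW : ∀ n, ((W n : ctr X) : Set (BiPoly N M)) ∈ ctr X := fun n => (W n).2
  choose L fL aL a x hpt hxc hnc hvan using hW
  obtain ⟨Ω, _, _, φ, key, hm, hdiv⟩ := limit_pt X hpt
  obtain ⟨i₀, hi'⟩ := Function.ne_iff.1 hm.1
  obtain ⟨j₀, hj'⟩ := Function.ne_iff.1 hm.2.1
  have hi : φ (fun n => a n i₀) ≠ 0 := hi'
  have hj : φ (fun n => x n j₀) ≠ 0 := hj'
  rcases small_split hX hm with h1 | ⟨h1, h1'⟩
  · obtain ⟨D, c, hc⟩ := limit_rel key hdiv hi hj fun i => h1 i i₀
    obtain ⟨n, -, han, hxn, hrel⟩ := hc 0
    obtain ⟨e, -, he⟩ := not_nonconst (hxc n) hxn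
    have h2 : ∀ j, x n j / x n j₀ = algebraMap ℂ (L n) (e j) := fun j => by
      rw [he j]
      field_simp
    have h3 : ∀ P : MvPolynomial (Fin (M + 1)) ℂ, aeval (fun j => x n j / x n j₀) P =
        algebraMap ℂ (L n) (eval e P) := by
      intro P
      rw [show (fun j => x n j / x n j₀) = fun j => algebraMap ℂ (L n) (e j) from funext h2]
      have h3 := aeval_algebraMap_apply (L n) e P
      rw [aeval_eq_eval] at h3
      exact h3
    have h4 : ∀ i, IsAlgebraic ℂ (a n i / a n i₀) := by
      intro i
      obtain ⟨h5, h6⟩ := hrel i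
      refine ⟨∑ l ∈ Finset.range (D i + 1), Polynomial.C (eval e (c i l)) * Polynomial.X ^ l,
        ?_, ?_⟩
      · intro h0
        have h7 := congrArg (fun p => Polynomial.coeff p (D i)) h0
        simp only [Polynomial.finsetSum_coeff, Polynomial.coeff_C_mul, Polynomial.coeff_X_pow,
          Polynomial.coeff_zero, mul_ite, mul_one, mul_zero] at h7
        rw [Finset.sum_ite_eq, if_pos (Finset.mem_range.2 (Nat.lt_succ_self _))] at h7
        apply h6
        rw [h3, h7, map_zero]
      · rw [map_sum, ← h5]
        refine Finset.sum_congr rfl fun l _ => ?_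
        rw [map_mul, map_pow, Polynomial.aeval_C, Polynomial.aeval_X, h3]
    obtain ⟨e', -, he'⟩ := const_of han h4
    exact const_nonconst he' (hnc n)
  · obtain ⟨c, -, hc⟩ := not_nonconst h1 hj
    by_cases hna : Nonconst fun i => φ fun n => a n i
    · -- the limit is a curve
      obtain ⟨htr, hff⟩ := isFF_of (a := fun i => φ fun n => a n i) (k := i₀) hi hna h1'
      obtain ⟨v, hv, hgen⟩ := gen_sub (fun i => φ fun n => a n i) (k := i₀) hi
      have hvi : v i₀ ≠ 0 := by
        intro h0
        have h2 := hv i₀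
        rw [h0] at h2
        rw [div_self hi] at h2
        exact zero_ne_one h2
      have hvg : Pool.Agent.Q271.RC.IsGeneric v := ⟨⟨i₀, hvi⟩, hgen⟩
      have hsv : Same v (fun i => φ fun n => a n i) := same_sub hi hv
      -- the ideal of the curve
      let r : Fin (N + 1) → (n : ℕ) → L n := fun i n => a n i / a n i₀
      let J : Ideal (MvPolynomial (Fin (N + 1)) ℂ) := RingHom.ker
        ((φ : ((n : ℕ) → L n) →+* Ω).comp (aeval r : MvPolynomial (Fin (N + 1)) ℂ →ₐ[ℂ] _).toRingHom)
      obtain ⟨S, hS⟩ := (isNoetherian_def.1 (inferInstanceAs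
        (IsNoetherianRing (MvPolynomial (Fin (N + 1)) ℂ)))) J
      have hSJ : ∀ G ∈ S, φ (aeval r G) = 0 := by
        intro G hG
        have h2 : G ∈ J := by
          rw [← hS]
          exact Submodule.subset_span hG
        exact h2
      have hrn : ∀ (G : MvPolynomial (Fin (N + 1)) ℂ) n,
          (aeval r G) n = aeval (fun i => a n i / a n i₀) G := by
        intro G n
        have h3 : (Pi.evalAlgHom ℂ L n) (aeval r G) = aeval (fun i => a n i / a n i₀) G := by
          rw [comp_aeval_apply]
          rfl
        exact h3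
      have main : ∀ n₀, ∃ n, n₀ ≤ n ∧ ∃ l : L n, l ≠ 0 ∧
          (∀ j, x n j = l * algebraMap ℂ (L n) (c j)) ∧ Same v (a n) := by
        intro n₀
        obtain ⟨n, hn, h2, h3⟩ := key ((Finset.univ.image fun j => (fun n => x n j) -
          (fun n => x n j₀) * algebraMap ℂ _ (c j)) ∪ S.image fun G => aeval r G)
          ((fun n => x n j₀) * fun n => a n i₀) (by
            intro f hf
            rcases Finset.mem_union.1 hf with hf | hf
            · obtain ⟨j, -, rfl⟩ := Finset.mem_image.1 hf
              rw [map_sub, map_mul, AlgHom.commutes, sub_eq_zero]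
              exact hc j
            · obtain ⟨G, hG, rfl⟩ := Finset.mem_image.1 hf
              exact hSJ G hG) (by
            rw [map_mul]
            exact mul_ne_zero hj hi) n₀
        rw [Pi.mul_apply, mul_ne_zero_iff] at h3
        obtain ⟨hxn, han⟩ := h3
        refine ⟨n, hn, x n j₀, hxn, fun j => ?_, ?_⟩
        · have h4 := h2 _ (Finset.mem_union_left _ (Finset.mem_image_of_mem _ (Finset.mem_univ j)))
          rw [Pi.sub_apply, Pi.mul_apply, sub_eq_zero] at h4
          exact h4
        -- the point `a n` lies on the curve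
        have hJn : ∀ G ∈ J, aeval (fun i => a n i / a n i₀) G = 0 := by
          intro G hG
          have h4 : J ≤ RingHom.ker (aeval (fun i => a n i / a n i₀) :
              MvPolynomial (Fin (N + 1)) ℂ →ₐ[ℂ] L n) := by
            rw [← hS]
            refine Submodule.span_le.2 fun G hG => ?_
            have h5 := h2 _ (Finset.mem_union_right _ (Finset.mem_image_of_mem _ hG))
            rw [hrn] at h5
            exact h5
          exact h4 hG
        obtain ⟨u, hu, hugen⟩ := gen_sub (a n) han
        have hsu : Same u (a n) := same_sub han hu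
        have hpt' : Pool.Agent.Q271.RC.IsPoint v u := by
          intro G D hG hGv
          rw [hsu G D hG]
          have h4 : aeval (fun i => φ fun n => a n i) G = 0 := (hsv G D hG).1 hGv
          have h5 : G ∈ J := by
            change φ (aeval r G) = 0
            rw [comp_aeval_apply]
            have h6 : (fun i => φ (r i)) = fun i => (φ fun n => a n i₀)⁻¹ *
                φ fun n => a n i := by
              funext i
              rw [show φ (r i) = φ (fun n => a n i) / φ (fun n => a n i₀) from hdiv _ _ hi,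
                div_eq_inv_mul]
            rw [h6, Pool.Agent.Q271.RC.hom_scale _ _ hG, h4, mul_zero]
          have h6 := hJn G h5
          have h7 : a n = fun i => a n i₀ * (a n i / a n i₀) := by
            funext i
            field_simp
          rw [h7, Pool.Agent.Q271.RC.hom_scale _ _ hG, h6, mul_zero]
        have hncn := hnc n
        have hui : u i₀ ≠ 0 := by
          intro h0
          have h4 := hu i₀
          rw [h0, div_self han] at h4
          exact zero_ne_one h4
        have hug : Pool.Agent.Q271.RC.IsGeneric u := ⟨⟨i₀, hui⟩, hugen⟩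
        have htrn : ∃ t : ℕ, Algebra.trdeg ℂ (coords ℂ (a n)) = t := by
          have h4 : Algebra.EssFiniteType ℂ (coords ℂ (a n)) :=
            Pool.Agent.Q72.NA.ess_of_adjoin hugen
          have h5 : Algebra.trdeg ℂ (coords ℂ (a n)) < Cardinal.aleph0 := by
            rcases small_split hX (hpt n) with h6 | ⟨-, h6⟩
            · exfalso
              obtain ⟨e, -, he⟩ := not_nonconst (hxc n) hxn
              have h7 : coords ℂ (x n) ≤ (⊥ : IntermediateField ℂ (L n)) := by
                unfold coords
                rw [IntermediateField.adjoin_le_iff]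
                rintro _ ⟨i, j, hj, rfl⟩
                refine IntermediateField.mem_bot.2 ⟨e i / e j, ?_⟩
                rw [he i, he j, mul_div_mul_left _ _ hxn, map_div₀]
              obtain ⟨e', -, he'⟩ := const_of han fun i => alg_bot h7 (h6 i i₀)
              exact const_nonconst he' hncn
            · exact lt_of_le_of_lt h6 Cardinal.one_lt_aleph0
          exact Cardinal.lt_aleph0.1 h5
        obtain ⟨t, ht⟩ := htrn
        obtain ⟨h4, h5⟩ := Pool.Agent.Q96.OS.gen_point' hvg htr _ u t hpt' hug ht
        have h6 : t ≠ 0 := by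
          intro h0
          rw [h0, Nat.cast_zero, trdeg_eq_zero_iff] at ht
          obtain ⟨i, j, hj, htr⟩ := hncn
          apply htr
          have h7 : a n i / a n j ∈ coords ℂ (a n) :=
            IntermediateField.subset_adjoin _ _ ⟨i, j, hj, rfl⟩
          exact (ht.isAlgebraic ⟨a n i / a n j, h7⟩).algebraMap
        obtain ⟨σ, l, hl, hσ, -⟩ := h5 (by omega)
        have h7 : Same v u := Pool.Agent.Q96.HE.sameCurve_of σ hl hσ
        exact fun G D hG => (h7 G D hG).trans (hsu G D hG)
      obtain ⟨n, -, l, hl, hxl, hs⟩ := main 0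
      obtain ⟨n', hn', l', hl', hxl', hs'⟩ := main (n + 1)
      have h2 : vanP (a n) (x n) = vanP (a n') (x n') :=
        vanP_eq (fun G D hG => ((hs G D hG).symm).trans (hs' G D hG)) hl hl' hxl hxl'
      rw [← hvan n, ← hvan n'] at h2
      have h3 := W.injective (Subtype.ext h2)
      omega
    · -- the limit is a point
      obtain ⟨e, -, he⟩ := not_nonconst hna hi
      obtain ⟨n, -, h2, -⟩ := key (Finset.univ.image fun i => (fun n => a n i) -
        (fun n => a n i₀) * algebraMap ℂ _ (e i)) 1 (by
          intro f hf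
          obtain ⟨i, -, rfl⟩ := Finset.mem_image.1 hf
          rw [map_sub, map_mul, AlgHom.commutes, sub_eq_zero]
          exact he i) (by rw [map_one]; exact one_ne_zero) 0
      refine const_nonconst (x := a n) (l := a n i₀) (c := e) (fun i => ?_) (hnc n)
      have h3 := h2 _ (Finset.mem_image_of_mem _ (Finset.mem_univ i))
      rw [Pi.sub_apply, Pi.mul_apply, sub_eq_zero] at h3
      exact h3

end Pool.Agent.Run7.h789.SM
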