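import Pool.Agent.Run7.h789.SM.Lim

/-!
# Closed subvarieties of a product of projective spaces
-/

set_option autoImplicit false
set_option synthInstance.maxHeartbeats 400000

open MvPolynomial FF

namespace Pool.Agent.Run7.h789.SM

open Pool.Agent.W602.Cov.R (BiSet BiPoly BiHom)
open Pool.Agent.W602.GT (coords)
open Pool.Agent.W603.LV (canDeg)

variable {N M : ℕ}

/-- the point is not constant -/
def Nonconst {m : ℕ} {L : Type} [Field L] [Algebra ℂ L] (u : Fin (m + 1) → L) : Prop :=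
  ∃ i j, u j ≠ 0 ∧ Transcendental ℂ (u i / u j)

/-- every closed subvariety of dimension at least two is generically finite over its image in the
second factor -/
def Small (X : BiSet N M) : Prop :=
  ∀ (L : Type) [Field L] [Algebra ℂ L] (a : Fin (N + 1) → L) (x : Fin (M + 1) → L), X.Mem a x →
    coords ℂ a ⊔ coords ℂ x = ⊤ → 2 ≤ Algebra.trdeg ℂ L → Algebra.IsAlgebraic (coords ℂ x) L

theorem alg_mono {Ω : Type} [Field Ω] [Algebra ℂ Ω] {F E : IntermediateField ℂ Ω} (h : F ≤ E)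
    {z : Ω} (hz : IsAlgebraic F z) : IsAlgebraic E z := by
  obtain ⟨p, hp, hpz⟩ := hz
  let f : F →+* E := (IntermediateField.inclusion h).toRingHom
  refine ⟨p.map f, ?_, ?_⟩
  · rw [Ne, Polynomial.map_eq_zero_iff f.injective]
    exact hp
  · rw [Polynomial.aeval_def, Polynomial.eval₂_map]
    rw [Polynomial.aeval_def] at hpz
    exact hpz

theorem alg_bot {Ω : Type} [Field Ω] [Algebra ℂ Ω] {F : IntermediateField ℂ Ω}
    (h : F ≤ (⊥ : IntermediateField ℂ Ω)) {z : Ω} (hz : IsAlgebraic F z) : IsAlgebraic ℂ z := by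
  have h1 := alg_mono h hz
  have : Algebra.IsAlgebraic ℂ (⊥ : IntermediateField ℂ Ω) :=
    ⟨fun z => by
      obtain ⟨w, hw⟩ := IntermediateField.mem_bot.1 z.2
      have h3 : z = algebraMap ℂ (⊥ : IntermediateField ℂ Ω) w := Subtype.ext hw.symm
      rw [h3]
      exact isAlgebraic_algebraMap w⟩
  exact h1.restrictScalars ℂ

/-- the field of the ratios and homomorphisms -/
theorem coords_map {m : ℕ} {E Ω : Type} [Field E] [Algebra ℂ E] [Field Ω] [Algebra ℂ Ω]
    (σ : E →ₐ[ℂ] Ω) {v : Fin (m + 1) → E} {z : Fin (m + 1) → Ω} {l : Ω} (hl : l ≠ 0)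
    (h : ∀ i, z i = l * σ (v i)) : (coords ℂ v).map σ = coords ℂ z := by
  unfold coords
  rw [IntermediateField.adjoin_map]
  congr 1
  have h0 : ∀ b, v b ≠ 0 ↔ z b ≠ 0 := by
    intro b
    rw [h b, mul_ne_zero_iff, and_iff_right hl, map_ne_zero]
  have h1 : ∀ a b, v b ≠ 0 → σ (v a / v b) = z a / z b := by
    intro a b hb
    have h2 : σ (v b) ≠ 0 := (map_ne_zero σ).2 hb
    rw [map_div₀, h a, h b]
    field_simp
  ext u
  constructor
  · rintro ⟨_, ⟨a, b, hb, rfl⟩, rfl⟩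
    exact ⟨a, b, (h0 b).1 hb, h1 a b hb⟩
  · rintro ⟨a, b, hb, rfl⟩
    exact ⟨v a / v b, ⟨a, b, (h0 b).2 hb, rfl⟩, h1 a b ((h0 b).2 hb)⟩

theorem top_of_map {E : Type} [Field E] [Algebra ℂ E] (F : IntermediateField ℂ E)
    (G : IntermediateField ℂ F) (h : G.map F.val = F) : G = ⊤ := by
  have h2 : (⊤ : IntermediateField ℂ F).map F.val = F := by
    rw [← AlgHom.fieldRange_eq_map, IntermediateField.fieldRange_val]
  exact IntermediateField.map_injective F.val (h.trans h2.symm)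

/-- the generic point of the closure of a point of projective space -/
theorem gen_sub {m : ℕ} {Ω : Type} [Field Ω] [Algebra ℂ Ω] (z : Fin (m + 1) → Ω)
    {k : Fin (m + 1)} (hk : z k ≠ 0) : ∃ v : Fin (m + 1) → coords ℂ z,
      (∀ i, ((v i : coords ℂ z) : Ω) = z i / z k) ∧ coords ℂ v = ⊤ := by
  have hmem : ∀ i, z i / z k ∈ coords ℂ z := fun i =>
    IntermediateField.subset_adjoin _ _ ⟨i, k, hk, rfl⟩
  refine ⟨fun i => ⟨z i / z k, hmem i⟩, fun i => rfl, ?_⟩
  refine top_of_map (coords ℂ z) _ (coords_map (coords ℂ z).val (l := z k) hk fun i => ?_)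
  change z i = z k * (z i / z k)
  field_simp

/-- the generic point of the closure of a point of the product -/
theorem gen_pair (X : BiSet N M) {Ω : Type} [Field Ω] [Algebra ℂ Ω] {a : Fin (N + 1) → Ω}
    {x : Fin (M + 1) → Ω} (h : X.Mem a x) {i₀ : Fin (N + 1)} {j₀ : Fin (M + 1)} (hi : a i₀ ≠ 0)
    (hj : x j₀ ≠ 0) : ∃ (a' : Fin (N + 1) → ↥(coords ℂ a ⊔ coords ℂ x))
      (x' : Fin (M + 1) → ↥(coords ℂ a ⊔ coords ℂ x)), X.Mem a' x' ∧
      (∀ i, ((a' i : ↥(coords ℂ a ⊔ coords ℂ x)) : Ω) = a i / a i₀) ∧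
      (∀ j, ((x' j : ↥(coords ℂ a ⊔ coords ℂ x)) : Ω) = x j / x j₀) ∧
      coords ℂ a' ⊔ coords ℂ x' = ⊤ := by
  obtain ⟨E, hE⟩ : ∃ E, E = coords ℂ a ⊔ coords ℂ x := ⟨_, rfl⟩
  rw [← hE]
  have h1 : ∀ i, a i / a i₀ ∈ E := fun i => by
    rw [hE]
    exact (le_sup_left : coords ℂ a ≤ _) (IntermediateField.subset_adjoin _ _ ⟨i, i₀, hi, rfl⟩)
  have h2 : ∀ j, x j / x j₀ ∈ E := fun j => by
    rw [hE]
    exact (le_sup_right : coords ℂ x ≤ _) (IntermediateField.subset_adjoin _ _ ⟨j, j₀, hj, rfl⟩)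
  refine ⟨fun i => ⟨a i / a i₀, h1 i⟩, fun j => ⟨x j / x j₀, h2 j⟩, ⟨?_, ?_, ?_⟩, fun _ => rfl,
    fun _ => rfl, ?_⟩
  · intro h0
    have h3 := congrArg Subtype.val (congrFun h0 i₀)
    change a i₀ / a i₀ = 0 at h3
    rw [div_self hi] at h3
    exact one_ne_zero h3
  · intro h0
    have h3 := congrArg Subtype.val (congrFun h0 j₀)
    change x j₀ / x j₀ = 0 at h3
    rw [div_self hj] at h3
    exact one_ne_zero h3
  · intro G hG
    obtain ⟨D, D', hGD⟩ := X.hom G hG
    refine (map_eq_zero E.val).1 ?_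
    rw [comp_aeval_apply]
    have h3 := Pool.Agent.Run7.h789.RC.bi_scale hGD (a i₀)⁻¹ (x j₀)⁻¹ a x
    rw [h.2.2 G hG, mul_zero] at h3
    rw [← h3]
    congr 2
    funext s
    rcases s with s | s
    · change a s / a i₀ = (a i₀)⁻¹ * a s
      rw [div_eq_inv_mul]
    · change x s / x j₀ = (x j₀)⁻¹ * x s
      rw [div_eq_inv_mul]
  · refine top_of_map E _ ?_
    have e1 : (coords ℂ fun i => (⟨a i / a i₀, h1 i⟩ : E)).map E.val = coords ℂ a :=
      coords_map E.val (l := a i₀) hi fun i => by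
        change a i = a i₀ * (a i / a i₀)
        field_simp
    have e2 : (coords ℂ fun j => (⟨x j / x j₀, h2 j⟩ : E)).map E.val = coords ℂ x :=
      coords_map E.val (l := x j₀) hj fun j => by
        change x j = x j₀ * (x j / x j₀)
        field_simp
    rw [IntermediateField.map_sup, e1, e2, hE]

theorem small_split {X : BiSet N M} (hX : Small X) {Ω : Type} [Field Ω] [Algebra ℂ Ω]
    {a : Fin (N + 1) → Ω} {x : Fin (M + 1) → Ω} (h : X.Mem a x) :
    (∀ i j, IsAlgebraic (coords ℂ x) (a i / a j)) ∨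
      (¬ Nonconst x ∧ Algebra.trdeg ℂ (coords ℂ a) ≤ 1) := by
  obtain ⟨i₀, hi'⟩ := Function.ne_iff.1 h.1
  obtain ⟨j₀, hj'⟩ := Function.ne_iff.1 h.2.1
  have hi : a i₀ ≠ 0 := hi'
  have hj : x j₀ ≠ 0 := hj'
  obtain ⟨a', x', hm, ha, hx, htop⟩ := gen_pair X h hi hj
  -- algebraic over the second component
  have key : Algebra.IsAlgebraic (coords ℂ x') ↥(coords ℂ a ⊔ coords ℂ x) →
      ∀ i j, IsAlgebraic (coords ℂ x) (a i / a j) := by
    intro halg i j
    obtain ⟨p, hp, hpz⟩ := halg.isAlgebraic (a' i / a' j)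
    have hmap : (coords ℂ x').map (coords ℂ a ⊔ coords ℂ x).val = coords ℂ x :=
      coords_map _ (l := x j₀) hj fun j => by
        change x j = x j₀ * ((x' j : ↥(coords ℂ a ⊔ coords ℂ x)) : Ω)
        rw [hx j]
        field_simp
    have hmem : ∀ z : coords ℂ x', (((z : ↥(coords ℂ a ⊔ coords ℂ x))) : Ω) ∈ coords ℂ x := by
      intro z
      exact hmap.le ⟨z.1, z.2, rfl⟩
    let f : coords ℂ x' →+* coords ℂ x :=
      { toFun := fun z => ⟨((z : ↥(coords ℂ a ⊔ coords ℂ x)) : Ω), hmem z⟩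
        map_one' := rfl
        map_mul' := fun _ _ => rfl
        map_zero' := rfl
        map_add' := fun _ _ => rfl }
    refine ⟨p.map f, ?_, ?_⟩
    · rw [Ne, Polynomial.map_eq_zero_iff f.injective]
      exact hp
    · have h1 : a i / a j = (coords ℂ a ⊔ coords ℂ x).val (a' i / a' j) := by
        rw [map_div₀]
        change a i / a j = ((a' i : ↥(coords ℂ a ⊔ coords ℂ x)) : Ω) /
          ((a' j : ↥(coords ℂ a ⊔ coords ℂ x)) : Ω)
        rw [ha i, ha j, div_div_div_cancel_right₀ hi]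
      rw [h1, Polynomial.aeval_def, Polynomial.eval₂_map]
      have h2 : (algebraMap (coords ℂ x) Ω).comp f =
          ((coords ℂ a ⊔ coords ℂ x).val : ↥(coords ℂ a ⊔ coords ℂ x) →+* Ω).comp
            (algebraMap (coords ℂ x') ↥(coords ℂ a ⊔ coords ℂ x)) := rfl
      rw [h2]
      have h3 := Polynomial.hom_eval₂ p (algebraMap (coords ℂ x') ↥(coords ℂ a ⊔ coords ℂ x))
        ((coords ℂ a ⊔ coords ℂ x).val : ↥(coords ℂ a ⊔ coords ℂ x) →+* Ω) (a' i / a' j)
      rw [← Polynomial.aeval_def, hpz, map_zero] at h3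
      exact h3.symm
  by_cases h2 : 2 ≤ Algebra.trdeg ℂ ↥(coords ℂ a ⊔ coords ℂ x)
  · exact Or.inl (key (hX _ a' x' hm htop h2))
  have h3 : Algebra.trdeg ℂ ↥(coords ℂ a ⊔ coords ℂ x) ≤ 1 := by
    rw [not_le] at h2
    obtain ⟨n, hn⟩ := Cardinal.lt_aleph0.1 (h2.trans (Cardinal.natCast_lt_aleph0 (n := 2)))
    rw [hn] at h2 ⊢
    have h4 : n < 2 := by exact_mod_cast h2
    have h5 : n ≤ 1 := by omega
    exact_mod_cast h5
  by_cases hnc : Nonconst x
  · left
    apply key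
    obtain ⟨i, j, hxj, htr⟩ := hnc
    have hx'j : x' j ≠ 0 := by
      intro h0
      have h4 := hx j
      rw [h0] at h4
      exact div_ne_zero hxj hj h4.symm
    have htr' : Transcendental ℂ (x' i / x' j) := by
      intro hal
      apply htr
      have h4 := hal.algHom (coords ℂ a ⊔ coords ℂ x).val
      have h5 : (coords ℂ a ⊔ coords ℂ x).val (x' i / x' j) = x i / x j := by
        rw [map_div₀]
        change ((x' i : ↥(coords ℂ a ⊔ coords ℂ x)) : Ω) /
          ((x' j : ↥(coords ℂ a ⊔ coords ℂ x)) : Ω) = _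
        rw [hx i, hx j, div_div_div_cancel_right₀ hj]
      rwa [h5] at h4
    have hind : AlgebraicIndependent ℂ (fun _ : Unit => x' i / x' j) :=
      algebraicIndependent_unique_type_iff.2 htr'
    have hbas : IsTranscendenceBasis ℂ (fun _ : Unit => x' i / x' j) :=
      hind.isTranscendenceBasis_of_trdeg_le_of_finite (by simpa using h3)
    have h6 := hbas.isAlgebraic_field
    refine ⟨fun z => alg_mono (F := IntermediateField.adjoin ℂ
      (Set.range fun _ : Unit => x' i / x' j)) ?_ (h6.isAlgebraic z)⟩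
    rw [IntermediateField.adjoin_le_iff]
    rintro _ ⟨_, rfl⟩
    exact IntermediateField.subset_adjoin _ _ ⟨i, j, hx'j, rfl⟩
  · right
    refine ⟨hnc, le_trans ?_ h3⟩
    exact trdeg_le_of_injective (IntermediateField.inclusion le_sup_left)
      (IntermediateField.inclusion_injective le_sup_left)

end Pool.Agent.Run7.h789.SM
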