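import Pool.Agent.Run7.h789.RC.Nc
import Pool.Agent.Run7.h789.RC.Qf

/-!
# Limits of points of a closed subset of a product of projective spaces
-/

set_option autoImplicit false
set_option synthInstance.maxHeartbeats 400000

open MvPolynomial FF

namespace Pool.Agent.Run7.h789.SM

open Pool.Agent.W602.Cov.R (BiSet BiPoly BiHom)
open Pool.Agent.W602.GT (coords)
open Pool.Agent.W603.LV (canDeg)

variable {N M : ℕ}

/-- the ultraproduct of a sequence of fields, and the limit of a sequence of points -/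
theorem limit_pt (X : BiSet N M) {L : ℕ → Type} [∀ n, Field (L n)] [∀ n, Algebra ℂ (L n)]
    {a : (n : ℕ) → Fin (N + 1) → L n} {x : (n : ℕ) → Fin (M + 1) → L n}
    (hpt : ∀ n, X.Mem (a n) (x n)) :
    ∃ (Ω : Type) (_ : Field Ω) (_ : Algebra ℂ Ω) (φ : ((n : ℕ) → L n) →ₐ[ℂ] Ω),
      (∀ (F : Finset ((n : ℕ) → L n)) (g : (n : ℕ) → L n), (∀ f ∈ F, φ f = 0) → φ g ≠ 0 →
        ∀ n₀, ∃ n, n₀ ≤ n ∧ (∀ f ∈ F, f n = 0) ∧ g n ≠ 0) ∧
      X.Mem (fun i => φ fun n => a n i) (fun j => φ fun n => x n j) ∧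
      ∀ (f g : (n : ℕ) → L n), φ g ≠ 0 → φ (fun n => f n / g n) = φ f / φ g := by
  classical
  let R := (n : ℕ) → L n
  -- the ideal of the sequences which are zero almost everywhere
  let I : Ideal R :=
    { carrier := {f | ∃ n₀, ∀ n, n₀ ≤ n → f n = 0}
      add_mem' := by
        rintro f g ⟨n₁, h1⟩ ⟨n₂, h2⟩
        refine ⟨max n₁ n₂, fun n hn => ?_⟩
        rw [Pi.add_apply, h1 n (le_trans (le_max_left _ _) hn),
          h2 n (le_trans (le_max_right _ _) hn), add_zero]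
      zero_mem' := ⟨0, fun n _ => rfl⟩
      smul_mem' := by
        rintro c f ⟨n₁, h1⟩
        refine ⟨n₁, fun n hn => ?_⟩
        rw [smul_eq_mul, Pi.mul_apply, h1 n hn, mul_zero] }
  have hI : I ≠ ⊤ := by
    intro h
    have h1 : (1 : R) ∈ I := by rw [h]; trivial
    obtain ⟨n₀, hn⟩ := h1
    exact one_ne_zero (hn n₀ le_rfl)
  obtain ⟨m, hm, hIm⟩ := Ideal.exists_le_maximal I hI
  let _ : Field (R ⧸ m) := Ideal.Quotient.field m
  let φ : R →ₐ[ℂ] (R ⧸ m) := Ideal.Quotient.mkₐ ℂ m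
  -- transfer
  have key : ∀ (F : Finset R) (g : R), (∀ f ∈ F, φ f = 0) → φ g ≠ 0 → ∀ n₀, ∃ n, n₀ ≤ n ∧
      (∀ f ∈ F, f n = 0) ∧ g n ≠ 0 := by
    intro F g hF hg n₀
    by_contra hno
    push Not at hno
    apply hg
    have hmem : ∀ f : R, φ f = 0 ↔ f ∈ m := fun f => Ideal.Quotient.eq_zero_iff_mem
    let p : R := fun n => ∏ f ∈ F, if f n = 0 then 1 else 0
    have h2 : φ p = 1 := by
      have h3 : p = ∏ f ∈ F, (1 - (fun n => (f n)⁻¹) * f) := by
        funext n
        rw [Finset.prod_apply]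
        refine Finset.prod_congr rfl fun f _ => ?_
        rw [Pi.sub_apply, Pi.mul_apply, Pi.one_apply]
        split_ifs with h
        · rw [h, mul_zero, sub_zero]
        · rw [inv_mul_cancel₀ h, sub_self]
      rw [h3, map_prod]
      refine Finset.prod_eq_one fun f hf => ?_
      rw [map_sub, map_mul, hF f hf, mul_zero, sub_zero, map_one]
    have h3 : p * g ∈ I := by
      refine ⟨n₀, fun n hn => ?_⟩
      rw [Pi.mul_apply]
      by_cases h4 : ∀ f ∈ F, f n = 0
      · rw [hno n hn h4, mul_zero]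
      · push Not at h4
        obtain ⟨f, hf, hfn⟩ := h4
        have : p n = 0 := Finset.prod_eq_zero hf (if_neg hfn)
        rw [this, zero_mul]
    have h4 : φ (p * g) = 0 := (hmem _).2 (hIm h3)
    rwa [map_mul, h2, one_mul] at h4
  -- the limit point
  let A : Fin (N + 1) → R := fun i n => a n i
  let Y : Fin (M + 1) → R := fun j n => x n j
  have hPt : X.Mem (fun i => φ (A i)) (fun j => φ (Y j)) := by
    refine ⟨?_, ?_, ?_⟩
    · intro h0
      obtain ⟨n, -, h1, -⟩ := key (Finset.univ.image A) 1 (by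
        intro f hf
        obtain ⟨i, -, rfl⟩ := Finset.mem_image.1 hf
        exact congrFun h0 i) (by rw [map_one]; exact one_ne_zero) 0
      exact (hpt n).1 (funext fun i => h1 (A i) (Finset.mem_image_of_mem _ (Finset.mem_univ i)))
    · intro h0
      obtain ⟨n, -, h1, -⟩ := key (Finset.univ.image Y) 1 (by
        intro f hf
        obtain ⟨i, -, rfl⟩ := Finset.mem_image.1 hf
        exact congrFun h0 i) (by rw [map_one]; exact one_ne_zero) 0
      exact (hpt n).2.1 (funext fun i => h1 (Y i) (Finset.mem_image_of_mem _ (Finset.mem_univ i)))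
    · intro G hG
      have h1 : aeval (Sum.elim (fun i => φ (A i)) fun j => φ (Y j)) G =
          φ (aeval (Sum.elim A Y) G) := by
        rw [comp_aeval_apply]
        congr 2
        funext s
        cases s <;> rfl
      have h2 : aeval (Sum.elim A Y) G = 0 := by
        funext n
        have h3 : (Pi.evalAlgHom ℂ L n) (aeval (Sum.elim A Y) G) =
            aeval (Sum.elim (a n) (x n)) G := by
          rw [comp_aeval_apply]
          congr 2
          funext s
          cases s <;> rfl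
        exact h3.trans ((hpt n).2.2 G hG)
      rw [h1, h2, map_zero]
  refine ⟨R ⧸ m, inferInstance, inferInstance, φ, key, hPt, ?_⟩
  intro f g hg
  rw [eq_div_iff hg, ← map_mul, ← sub_eq_zero, ← map_sub]
  by_contra h1
  obtain ⟨n, -, -, h2⟩ := key ∅ (((fun n => f n / g n) * g - f) * g) (by simp)
    (by rw [map_mul]; exact mul_ne_zero h1 hg) 0
  apply h2
  rw [Pi.mul_apply, Pi.sub_apply, Pi.mul_apply]
  by_cases h3 : g n = 0
  · rw [h3, mul_zero]
  · rw [div_mul_cancel₀ _ h3, sub_self, zero_mul]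

/-- the point is constant -/
theorem const_of {m : ℕ} {L : Type} [Field L] [Algebra ℂ L] {x : Fin (m + 1) → L}
    {j₀ : Fin (m + 1)} (hj : x j₀ ≠ 0) (h : ∀ j, IsAlgebraic ℂ (x j / x j₀)) :
    ∃ c : Fin (m + 1) → ℂ, c j₀ = 1 ∧ ∀ j, x j = x j₀ * algebraMap ℂ L (c j) := by
  have h1 : ∀ j, ∃ c : ℂ, x j / x j₀ = algebraMap ℂ L c := by
    intro j
    have h3 : (minpoly ℂ (x j / x j₀)).degree = 1 :=
      IsAlgClosed.degree_eq_one_of_irreducible ℂ (minpoly.irreducible (h j).isIntegral)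
    obtain ⟨c, hc⟩ := minpoly.mem_range_of_degree_eq_one ℂ _ h3
    exact ⟨c, hc.symm⟩
  choose c hc using h1
  refine ⟨c, ?_, fun j => ?_⟩
  · have h2 := hc j₀
    rw [div_self hj] at h2
    exact (algebraMap ℂ L).injective (by rw [map_one]; exact h2.symm)
  · rw [← hc j]
    field_simp

/-- the relations in the limit -/
theorem limit_rel {L : ℕ → Type} [∀ n, Field (L n)] [∀ n, Algebra ℂ (L n)]
    {a : (n : ℕ) → Fin (N + 1) → L n} {x : (n : ℕ) → Fin (M + 1) → L n} {Ω : Type} [Field Ω]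
    [Algebra ℂ Ω] {φ : ((n : ℕ) → L n) →ₐ[ℂ] Ω}
    (key : ∀ (F : Finset ((n : ℕ) → L n)) (g : (n : ℕ) → L n), (∀ f ∈ F, φ f = 0) → φ g ≠ 0 →
      ∀ n₀, ∃ n, n₀ ≤ n ∧ (∀ f ∈ F, f n = 0) ∧ g n ≠ 0)
    (hdiv : ∀ (f g : (n : ℕ) → L n), φ g ≠ 0 → φ (fun n => f n / g n) = φ f / φ g)
    {i₀ : Fin (N + 1)} {j₀ : Fin (M + 1)} (hi₀ : φ (fun n => a n i₀) ≠ 0)
    (hj₀ : φ (fun n => x n j₀) ≠ 0)
    (halg : ∀ i, IsAlgebraic (coords ℂ fun j => φ fun n => x n j)
      (φ (fun n => a n i) / φ (fun n => a n i₀))) :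
    ∃ (D : Fin (N + 1) → ℕ) (c : Fin (N + 1) → ℕ → MvPolynomial (Fin (M + 1)) ℂ),
      ∀ n₀, ∃ n, n₀ ≤ n ∧ a n i₀ ≠ 0 ∧ x n j₀ ≠ 0 ∧ ∀ i,
        ∑ l ∈ Finset.range (D i + 1), aeval (fun j => x n j / x n j₀) (c i l) *
          (a n i / a n i₀) ^ l = 0 ∧ aeval (fun j => x n j / x n j₀) (c i (D i)) ≠ 0 := by
  classical
  let R := (n : ℕ) → L n
  choose D c hc1 hc2 using fun i => Pool.Agent.Run7.h789.RC.exists_rel' (K := ℂ)
    (x := fun j => φ fun n => x n j) (j₀ := j₀) hj₀ (halg i)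
  let r : Fin (M + 1) → R := fun j n => x n j / x n j₀
  let z : Fin (N + 1) → R := fun i n => a n i / a n i₀
  have hr : ∀ j, φ (r j) = φ (fun n => x n j) / φ (fun n => x n j₀) := fun j => hdiv _ _ hj₀
  have hz : ∀ i, φ (z i) = φ (fun n => a n i) / φ (fun n => a n i₀) := fun i => hdiv _ _ hi₀
  have hrP : ∀ P : MvPolynomial (Fin (M + 1)) ℂ,
      φ (aeval r P) = aeval (fun j => φ (fun n => x n j) / φ (fun n => x n j₀)) P := by
    intro P
    rw [comp_aeval_apply]
    congr 2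
    funext j
    exact hr j
  have hrn : ∀ (P : MvPolynomial (Fin (M + 1)) ℂ) n,
      (aeval r P) n = aeval (fun j => x n j / x n j₀) P := by
    intro P n
    have h3 : (Pi.evalAlgHom ℂ L n) (aeval r P) = aeval (fun j => x n j / x n j₀) P := by
      rw [comp_aeval_apply]
      rfl
    exact h3
  refine ⟨D, c, fun n₀ => ?_⟩
  obtain ⟨n, hn, h1, h2⟩ := key
    (Finset.univ.image fun i => ∑ l ∈ Finset.range (D i + 1), aeval r (c i l) * z i ^ l)
    ((fun n => x n j₀) * (fun n => a n i₀) * ∏ i, aeval r (c i (D i))) (by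
      intro f hf
      obtain ⟨i, -, rfl⟩ := Finset.mem_image.1 hf
      rw [map_sum, ← hc1 i]
      refine Finset.sum_congr rfl fun l _ => ?_
      rw [map_mul, map_pow, hrP, hz]) (by
      rw [map_mul, map_mul, map_prod]
      refine mul_ne_zero (mul_ne_zero hj₀ hi₀) (Finset.prod_ne_zero_iff.2 fun i _ => ?_)
      rw [hrP]
      exact hc2 i) n₀
  rw [Pi.mul_apply, Pi.mul_apply, Finset.prod_apply, mul_ne_zero_iff, mul_ne_zero_iff,
    Finset.prod_ne_zero_iff] at h2
  obtain ⟨⟨hxn, han⟩, hcn⟩ := h2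
  refine ⟨n, hn, han, hxn, fun i => ⟨?_, ?_⟩⟩
  · have h4 := h1 _ (Finset.mem_image_of_mem _ (Finset.mem_univ i))
    rw [Finset.sum_apply] at h4
    rw [← h4]
    refine Finset.sum_congr rfl fun l _ => ?_
    rw [Pi.mul_apply, Pi.pow_apply, hrn]
  · have h4 := hcn i (Finset.mem_univ i)
    rwa [hrn] at h4

end Pool.Agent.Run7.h789.SM
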