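import Pool.Agent.Run7.h789.SM.Ent
import Pool.Agent.Run7.h789.SM.Ell
import Pool.Agent.Q285.SFG.Gpc
import Pool.Agent.Q95.SF.Wei

/-!
# Notions of hyperbolicity
-/

set_option autoImplicit false
set_option synthInstance.maxHeartbeats 400000

open MvPolynomial FF

namespace Pool.Agent.Run7.h789.SM

open Pool.Agent.NH29.GN (Idx Mon fv)
open Pool.Agent.W602.Cov.R (BiSet BiPoly BiHom)
open Pool.Agent.W602.GT (coords GeneralType)
open Pool.Agent.W603.LV (canDeg)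
open Pool.Agent.W603.PV
open Pool.Agent.Q103.SF (S_gpc S_wei IsElliptic)
open Pool.Agent.Run7.h789.FV (mord mht_nonneg)

variable {N M : ℕ}

/-- Brody hyperbolicity -/
def Brody (X : BiSet N M) : Prop :=
  ∀ (u : ℂ → Fin (N + 1) → ℂ) (v : ℂ → Fin (M + 1) → ℂ), Differentiable ℂ u → Differentiable ℂ v →
    (∀ z, X.Mem (u z) (v z)) → ∀ z z', (∃ s : ℂ, u z' = s • u z) ∧ ∃ s : ℂ, v z' = s • v z

/-- all closed subvarieties of positive dimension are of general type -/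
def AllGT (X : BiSet N M) : Prop :=
  ∀ (L : Type) [Field L] [Algebra ℂ L] (a : Fin (N + 1) → L) (x : Fin (M + 1) → L) (w : ℕ),
    X.Mem a x → coords ℂ a ⊔ coords ℂ x = ⊤ → Algebra.trdeg ℂ L = w → 0 < w → GeneralType ℂ L w

/-- algebraic hyperbolicity -/
def AlgHyp (X : BiSet N M) : Prop :=
  ∃ A : ℕ, ∀ (L : Type) [Field L] [Algebra ℂ L] [IsFF ℂ L] (a : Fin (N + 1) → L)
    (x : Fin (M + 1) → L), X.Mem a x → pht ℂ a + pht ℂ x ≤ A * max (canDeg ℂ L) 0

/-- every map from an elliptic curve is constant -/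
def NoEll (X : BiSet N M) : Prop :=
  ∀ (E : Type) [Field E] [Algebra ℂ E] [IsFF ℂ E], IsElliptic E → ∀ (a : Fin (N + 1) → E)
    (x : Fin (M + 1) → E), X.Mem a x → ¬ Nonconst a ∧ ¬ Nonconst x

theorem pht_zero {m : ℕ} {L : Type} [Field L] [Algebra ℂ L] [IsFF ℂ L] {v : Fin (m + 1) → L}
    (hv : v ≠ 0) : 0 ≤ pht ℂ v := mht_nonneg (k := ℂ) (Function.ne_iff.1 hv)

theorem brody_of (hG1 : S_gpc) {X : BiSet N M} (hX : Fib X) {A : ℕ} (hE : Eng X A)
    (h : lowC X = ∅) : Brody X := by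
  intro u v hu hv hm z z'
  refine ⟨?_, hE.entire u v hu hv hm z z'⟩
  by_contra hcon
  have h1 := low_ent hG1 hX hE hu hv hm hcon
  rw [h] at h1
  exact h1

theorem of_brody (hw : S_wei) {X : BiSet N M} {A : ℕ} (hE : Eng X A) (h : Brody X) :
    lowC X = ∅ := by
  rw [Set.eq_empty_iff_forall_notMem]
  intro W hW
  obtain ⟨u, c, hu, hm, z₀, z₁, hne⟩ := ent_of_low hw hE hW
  exact hne (h u (fun _ => c) hu (differentiable_const c) hm z₀ z₁).1

theorem of_noEll {X : BiSet N M} {A : ℕ} (hE : Eng X A) (h : NoEll X) : lowC X = ∅ := by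
  rw [Set.eq_empty_iff_forall_notMem]
  rintro W ⟨L, _, _, _, a, x, hm, htop, hcd, rfl⟩
  obtain ⟨h1, h2, h3⟩ := low_ctr hE hm htop hcd
  obtain ⟨E, _, _, _, σ, hEl⟩ := exists_ell hcd
  obtain ⟨i, j, hj, hij⟩ := h3
  refine (h E hEl (fun i => σ (a i)) (fun j => σ (x j)) ⟨?_, ?_, fun G hG => ?_⟩).1
    ⟨i, j, (map_ne_zero σ).2 hj, ?_⟩
  · intro h0
    apply hm.1
    funext i
    exact (map_eq_zero σ).1 (congrFun h0 i)
  · intro h0
    apply hm.2.1
    funext i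
    exact (map_eq_zero σ).1 (congrFun h0 i)
  · have h4 : aeval (Sum.elim (fun i => σ (a i)) fun j => σ (x j)) G =
        σ (aeval (Sum.elim a x) G) := by
      rw [comp_aeval_apply]
      congr 2
      funext s
      rcases s with s | s <;> rfl
    rw [h4, hm.2.2 G hG, map_zero]
  · rw [← map_div₀]
    intro h4
    exact hij ((isAlgebraic_algHom_iff σ σ.injective).1 h4)

/-- maps from curves of genus at most one -/
theorem noEll_of (hw : S_wei) (hG1 : S_gpc) {X : BiSet N M} {A : ℕ} (hE : Eng X A)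
    (h : lowC X = ∅) : NoEll X := by
  intro E _ _ _ hEl a x hm
  have hcd := ell_canDeg hw hG1 hEl
  have h1 := hE.curve E a x hm
  rw [max_eq_right hcd, mul_zero] at h1
  have h2 : ¬ Nonconst x := fun h => absurd (Pool.Agent.Q96.LS.pht_pos x h) (not_lt.2 h1)
  refine ⟨fun h3 => ?_, h2⟩
  obtain ⟨j₀, hj⟩ := Function.ne_iff.1 hm.2.1
  obtain ⟨c, hc0, hc⟩ := not_nonconst h2 hj
  have h3' : Pool.Agent.Q271.RC.Nonconst a := h3
  obtain ⟨F, _, _, _, w, hw', hs⟩ := Pool.Agent.Q96.HE.exists_curve h3'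
  have hs' : Same w a := hs
  obtain ⟨r, hr, -, hr2⟩ := curve_map' hw'.1 hw'.2 (Function.ne_iff.1 hm.1) hs'
  have h4 : canDeg ℂ F ≤ 0 := by
    by_contra hcon
    rw [not_le] at hcon
    have hr' : (0 : ℤ) < r := by exact_mod_cast hr
    have := mul_pos hr' hcon
    omega
  have h5 : vanP w (fun j => algebraMap ℂ F (c j)) ∈ lowC X := by
    refine ⟨F, inferInstance, inferInstance, inferInstance, w, fun j => algebraMap ℂ F (c j),
      ⟨Function.ne_iff.2 hw'.1, fun h => ?_, fun G hG => ?_⟩, ?_, h4, rfl⟩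
    · have h6 := congrFun h j₀
      simp only [hc0, map_one, Pi.zero_apply] at h6
      exact one_ne_zero h6
    · obtain ⟨D, D', hD⟩ := X.hom G hG
      have h6 := val_const a hc hD
      rw [hm.2.2 G hG] at h6
      have h7 : aeval a (spec c G) = 0 := (mul_eq_zero.1 h6.symm).resolve_left (pow_ne_zero _ hj)
      rw [← spec_val, hs' _ D (spec_hom hD c)]
      exact h7
    · have h6 : coords ℂ w = ⊤ := hw'.2
      rw [h6, top_sup_eq]
  rw [h] at h5
  exact h5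

theorem allGT_of {X : BiSet N M} (hX : Small X) {A : ℕ} (hE : Eng X A) (h : lowC X = ∅) :
    AllGT X := by
  intro L _ _ a x w hm htop htr hw
  rcases low_sub hX hE L a x w hm htop htr hw with h1 | h1
  · exact h1
  · rw [h] at h1
    exact h1.elim

/-- curves of general type -/
theorem pos_of_gt {L : Type} [Field L] [Algebra ℂ L] [IsFF ℂ L] (h : GeneralType ℂ L 1) :
    0 < canDeg ℂ L := by
  obtain ⟨h1, N, hN, ω, h2, h3, h4⟩ := h
  have h5 : Pool.Agent.W602.GT.LogGeneralType ℂ L 1 (fun _ => False) := by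
    refine ⟨h1, N, hN, ω, h2, fun P hP j D hD => ?_, fun P hP _ j => h3 P hP j, h4⟩
    refine h3 P hP j D fun i f hf => ?_
    by_cases hf0 : f = 0
    · rw [hf0, map_zero]
      exact Or.inl rfl
    have h6 := P.reg_mul (hD i f) hf
    rwa [div_mul_cancel₀ _ hf0] at h6
  have h6 := Pool.Agent.Q96.HE.pos_of_lgt (Bd := fun _ : Place ℂ L => False) (by simp) h5
  simpa using h6

theorem of_allGT {X : BiSet N M} (h : AllGT X) : lowC X = ∅ := by
  rw [Set.eq_empty_iff_forall_notMem]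
  rintro W ⟨L, _, _, _, a, x, hm, htop, hcd, rfl⟩
  have h1 := h L a x 1 hm htop (by
    rw [IsFF.trdeg (k := ℂ) (K := L)]
    simp) one_pos
  have h2 := pos_of_gt h1
  omega

theorem algHyp_of {X : BiSet N M} (hX : Small X) {A : ℕ} (hE : Eng X A) (h : lowC X = ∅) :
    AlgHyp X := by
  obtain ⟨A', hA'⟩ := low_deg hX hE
  refine ⟨A', fun L _ _ _ a x hm => ?_⟩
  rcases hA' L a x hm with h1 | h1
  · exact h1
  · rw [h] at h1
    exact h1.elim

theorem of_algHyp {X : BiSet N M} {A : ℕ} (hE : Eng X A) (h : AlgHyp X) : lowC X = ∅ := by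
  rw [Set.eq_empty_iff_forall_notMem]
  rintro W ⟨L, _, _, _, a, x, hm, htop, hcd, rfl⟩
  obtain ⟨-, -, h3⟩ := low_ctr hE hm htop hcd
  obtain ⟨A', hA'⟩ := h
  have h4 := hA' L a x hm
  rw [max_eq_right hcd, mul_zero] at h4
  have h5 : 0 < pht ℂ a := Pool.Agent.Q96.LS.pht_pos a h3
  have h6 := pht_zero hm.2.1
  omega

/-- **The notions of hyperbolicity** for small maps. -/
theorem tfae (hw : S_wei) (hG1 : S_gpc) {X : BiSet N M} (hX : Small X) {A : ℕ} (hE : Eng X A) :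
    List.TFAE [Brody X, AllGT X, AlgHyp X, NoEll X, lowC X = ∅] := by
  tfae_have 1 → 5 := of_brody hw hE
  tfae_have 5 → 1 := brody_of hG1 (fib_of_small hX) hE
  tfae_have 2 → 5 := of_allGT
  tfae_have 5 → 2 := allGT_of hX hE
  tfae_have 3 → 5 := of_algHyp hE
  tfae_have 5 → 3 := algHyp_of hX hE
  tfae_have 4 → 5 := of_noEll hE
  tfae_have 5 → 4 := noEll_of hw hG1 hE
  tfae_finish

/-- ramification to order at least `m` -/
def Rmf {q : ℕ} {d : Fin q → ℕ} (X : BiSet N M) (t : Idx M d → ℂ) (m : ℕ) : Prop :=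
  ∀ (L : Type) [Field L] [Algebra ℂ L] (a : Fin (N + 1) → L) (x : Fin (M + 1) → L), X.Mem a x →
    ∀ (P : Place ℂ L) (b : Fin q), fv t x b ≠ 0 →
      P.ord (fv t x b) = d b * mord P x ∨ d b * mord P x + m ≤ P.ord (fv t x b)

theorem exists_eng {n r : ℕ} {V : Set (MvPolynomial (Fin (M + 1)) ℂ)} {d : Fin (r + 1) → ℕ}
    (hV : ∀ H ∈ V, ∃ e, H.IsHomogeneous e)
    {ℓ : Fin (n + 1) → MvPolynomial (Fin (M + 1)) ℂ} (hℓ : ∀ j, (ℓ j).IsHomogeneous 1)
    (hN : Pool.Agent.NH29.GN.NoZero V ℓ) (hq : n + 1 ≤ r + 1) (hd : ∀ i, 1 ≤ d i)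
    (hNum : ∀ C : Finset (Fin (r + 1)), C ≠ Finset.univ → Pool.Agent.NH29.GN.Num2 n d C) :
    ∃ (m A : ℕ) (Φ : MvPolynomial (Idx M d) ℂ), Φ ≠ 0 ∧ ∀ t : Idx M d → ℂ, aeval t Φ ≠ 0 →
      ∀ (N : ℕ) (X : BiSet N M), Pool.Agent.Run7.h789.RC.Over' X V → Rmf X t m → Eng X A := by
  classical
  obtain ⟨B, ι, Φ₁, h1, h2⟩ := Pool.Agent.Run7.h789.RC.exists_sys hV hℓ hN hq hd hNum
  obtain ⟨Φ₂, h3, A, μ, h4⟩ := Pool.Agent.Run7.h789.RC.hgt_main hV hℓ hN hq hd hNum
  refine ⟨max μ (Run7.h34.UG.mm r B), A, Φ₁ * Φ₂, mul_ne_zero h1 h3, fun t ht N X hXV hR => ?_⟩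
  rw [map_mul, mul_ne_zero_iff] at ht
  obtain ⟨F, hS⟩ := h2 t ht.1
  have hμ : (μ : ℤ) ≤ (max μ (Run7.h34.UG.mm r B) : ℕ) := by exact_mod_cast le_max_left _ _
  have hmm : (Run7.h34.UG.mm r B : ℤ) ≤ (max μ (Run7.h34.UG.mm r B) : ℕ) := by
    exact_mod_cast le_max_right _ _
  let D : BiSet N M := ⟨{1}, fun G hG => ⟨0, 0, by
    rw [Set.mem_singleton_iff] at hG
    rw [hG]
    exact isWeightedHomogeneous_one _ _⟩⟩
  have hD : ∀ {L : Type} [Field L] [Algebra ℂ L] (a : Fin (N + 1) → L) (x : Fin (M + 1) → L),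
      ¬ D.Mem a x := by
    intro L _ _ a x h
    have h5 := h.2.2 1 rfl
    rw [map_one] at h5
    exact one_ne_zero h5
  have hram : Pool.Agent.Run7.h789.RC.Ram X D t (Run7.h34.UG.mm r B) := by
    intro L _ _ a x hm P _ c hc hne
    obtain ⟨b, hb, hb1⟩ := hne
    refine ⟨b, hb, ?_⟩
    have h7 : mord P x = c := by
      obtain ⟨j₀, hj₀, hj₀c⟩ := hc.2
      refine le_antisymm ?_ ?_
      · rw [← hj₀c]
        exact Pool.Agent.Run7.h789.FV.mord_le P hj₀
      · obtain ⟨j, hj, hj'⟩ := Pool.Agent.Run7.h789.FV.exists_mord P ⟨j₀, hj₀⟩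
        rw [← hj']
        exact hc.1 j hj
    have h8 := hR L a x hm P b hb
    rw [h7] at h8
    have h9 := h8.resolve_left hb1
    linarith
  refine ⟨fun L _ _ _ a x hm => ?_, fun L _ _ a x w hm halg htr hw => ?_,
    fun u v hu hv hm z z' => ?_⟩
  · refine h4 ℂ L t ht.2 x hm.2.1 (Pool.Agent.Run7.h789.RC.onV_of hXV hm) fun P b hb => ?_
    rcases hR L a x hm P b hb with h5 | h5
    · exact Or.inl h5.le
    · right
      linarith
  · refine Pool.Agent.Run7.h789.RC.gt_of_lgt (Pool.Agent.Run7.h789.RC.lgt_cover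
      (Bd := fun _ => False) hS.gd hS.hom hS.pos hS.deg hS.lift hm.2.1
      (Pool.Agent.Run7.h789.RC.onV_of hXV hm)
      (fun y hy => hS.van L x hm.2.1 (Pool.Agent.Run7.h789.RC.onV_of hXV hm) y hy) hw htr halg
      fun P _ hne => ?_)
    obtain ⟨b, hb, hb1⟩ := hne
    refine ⟨b, hb, ?_⟩
    have h8 := (hR L a x hm P b hb).resolve_left hb1
    linarith
  · exact hS.entire hXV hram hu hv (fun z => ⟨hm z, hD _ _⟩) z z'

end Pool.Agent.Run7.h789.SM
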