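import Pool.Agent.Run7.h789.SM.Main

/-!
# Curves of genus at most one are images of elliptic curves
-/

set_option autoImplicit false
set_option synthInstance.maxHeartbeats 400000

open MvPolynomial FF

namespace Pool.Agent.Run7.h789.SM

open Pool.Agent.W602.Cov.R (BiSet BiPoly BiHom)
open Pool.Agent.W602.GT (coords)
open Pool.Agent.W603.LV (canDeg)
open Pool.Agent.Q103.SF (IsElliptic)

variable {N M : ℕ}

theorem ell_of_low {X : BiSet N M} {A : ℕ} (hE : Eng X A) {W : Set (BiPoly N M)}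
    (hW : W ∈ lowC X) : ∃ (E : Type) (_ : Field E) (_ : Algebra ℂ E) (_ : IsFF ℂ E)
      (a : Fin (N + 1) → E) (x : Fin (M + 1) → E), IsElliptic E ∧ X.Mem a x ∧ Nonconst a ∧
      vanP a x = W := by
  obtain ⟨L, _, _, _, a, x, hm, htop, hcd, rfl⟩ := hW
  obtain ⟨h1, h2, h3⟩ := low_ctr hE hm htop hcd
  obtain ⟨E, _, _, _, σ, hEl⟩ := exists_ell hcd
  obtain ⟨i, j, hj, hij⟩ := h3
  have h4 : ∀ G : BiPoly N M, aeval (Sum.elim (fun i => σ (a i)) fun j => σ (x j)) G =
      σ (aeval (Sum.elim a x) G) := by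
    intro G
    rw [comp_aeval_apply]
    congr 2
    funext s
    rcases s with s | s <;> rfl
  refine ⟨E, inferInstance, inferInstance, inferInstance, fun i => σ (a i), fun j => σ (x j), hEl,
    ⟨?_, ?_, fun G hG => ?_⟩, ⟨i, j, (map_ne_zero σ).2 hj, ?_⟩, ?_⟩
  · intro h0
    apply hm.1
    funext i
    exact (map_eq_zero σ).1 (congrFun h0 i)
  · intro h0
    apply hm.2.1
    funext i
    exact (map_eq_zero σ).1 (congrFun h0 i)
  · rw [h4, hm.2.2 G hG, map_zero]
  · rw [← map_div₀]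
    intro h5
    exact hij ((isAlgebraic_algHom_iff σ σ.injective).1 h5)
  · ext G
    refine and_congr_right fun _ => ?_
    rw [h4, map_eq_zero]

end Pool.Agent.Run7.h789.SM
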